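import Pool.Agent.SSO.Circuit

/-!
# The forest lemma and the two bounds for minimal circuits
-/

namespace Pool.SSO

open Finset

variable {V E : Type*} [DecidableEq V] [DecidableEq E]

/-- every incidence is essential -/
def Essential (W : Finset V) (I : Finset E) (f : E → Finset V) : Prop :=
  ∀ i ∈ I, ∀ w ∈ f i, ∃ Y, Tight W I f Y ∧ w ∉ Y ∧ (f i).erase w ⊆ Y

/-- a finite relation all of whose nonempty subrelations have a leaf is a forest -/
lemma forest_count {α β : Type*} [DecidableEq α] [DecidableEq β] (n : ℕ) :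
    ∀ (P : Finset (α × β)), P.card = n → P.Nonempty →
      (∀ P' ⊆ P, P'.Nonempty → ∃ p ∈ P',
        (∀ q ∈ P', q.2 = p.2 → q = p) ∨ (∀ q ∈ P', q.1 = p.1 → q = p)) →
      P.card + 1 ≤ (P.image Prod.fst).card + (P.image Prod.snd).card := by
  induction n with
  | zero =>
    intro P h hne _
    rw [card_eq_zero] at h
    exact absurd h hne.ne_empty
  | succ n ih =>
    intro P hn hne hleaf
    obtain ⟨p, hp, hl⟩ := hleaf P (Subset.refl _) hne
    have h1 : 1 ≤ (P.image Prod.fst).card := by
      rw [Nat.one_le_iff_ne_zero, ← Nat.pos_iff_ne_zero, card_pos]; exact hne.image _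
    have h2 : 1 ≤ (P.image Prod.snd).card := by
      rw [Nat.one_le_iff_ne_zero, ← Nat.pos_iff_ne_zero, card_pos]; exact hne.image _
    have hce : (P.erase p).card = n := by rw [card_erase_of_mem hp]; omega
    rcases (P.erase p).eq_empty_or_nonempty with he | he
    · rw [he, card_empty] at hce
      omega
    · have hih := ih (P.erase p) hce he
        (fun P' hP' hne' => hleaf P' (hP'.trans (erase_subset _ _)) hne')
      rcases hl with hl | hl
      · have ha : (P.erase p).image Prod.fst ⊆ P.image Prod.fst := image_subset_image (erase_subset _ _)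
        have hb : (P.erase p).image Prod.snd ⊆ (P.image Prod.snd).erase p.2 := by
          intro y hy
          obtain ⟨q, hq, rfl⟩ := mem_image.mp hy
          refine mem_erase.mpr ⟨?_, mem_image_of_mem _ (mem_of_mem_erase hq)⟩
          intro h
          exact (ne_of_mem_erase hq) (hl q (mem_of_mem_erase hq) h)
        have hb' := card_le_card hb
        rw [card_erase_of_mem (mem_image_of_mem _ hp)] at hb'
        have ha' := card_le_card ha
        omega
      · have ha : (P.erase p).image Prod.snd ⊆ P.image Prod.snd := image_subset_image (erase_subset _ _)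
        have hb : (P.erase p).image Prod.fst ⊆ (P.image Prod.fst).erase p.1 := by
          intro y hy
          obtain ⟨q, hq, rfl⟩ := mem_image.mp hy
          refine mem_erase.mpr ⟨?_, mem_image_of_mem _ (mem_of_mem_erase hq)⟩
          intro h
          exact (ne_of_mem_erase hq) (hl q (mem_of_mem_erase hq) h)
        have hb' := card_le_card hb
        rw [card_erase_of_mem (mem_image_of_mem _ hp)] at hb'
        have ha' := card_le_card ha
        omega

section
variable {W : Finset V} {I : Finset E} {f : E → Finset V}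

/-- Claim 1 -/
lemma claim1 (hc : Circ W I f) {w : V} (hd : 3 ≤ deg I f w) {i : E} (hi : i ∈ I)
    (hwi : w ∈ f i) {A : Finset V} (hA : Tight W I f A) (hwA : w ∉ A) (hfA : (f i).erase w ⊆ A) :
    Tight W I f (insert w A) ∧ ∀ j ∈ I, w ∈ f j → f j ⊆ insert w A → j = i := by
  have hwW : w ∈ W := hc.sub i hi hwi
  have hfi : f i ⊆ insert w A := by
    intro x hx
    by_cases h : x = w
    · exact h ▸ mem_insert_self _ _
    · exact mem_insert_of_mem (hfA (mem_erase.mpr ⟨h, hx⟩))
  have hci := cnt_insert (I := I) (f := f) hwA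
  have himem : i ∈ I.filter (fun i => w ∈ f i ∧ f i ⊆ insert w A) :=
    mem_filter.mpr ⟨hi, hwi, hfi⟩
  have hcA := hA.2.2
  have hcard := card_insert_of_notMem hwA
  have hsub : insert w A ⊆ W := insert_subset hwW hA.2.1.1
  by_cases hW : insert w A = W
  · exfalso
    have h1 : I.filter (fun i => w ∈ f i ∧ f i ⊆ insert w A) = I.filter (fun i => w ∈ f i) := by
      apply filter_congr
      intro j hj
      constructor
      · exact fun h => h.1
      · exact fun h => ⟨h, by rw [hW]; exact hc.sub j hj⟩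
    have h2 : cnt I f (insert w A) ≤ I.card := card_le_card (filter_subset _ _)
    have h3 := hc.card
    rw [← hW] at h3
    rw [h1] at hci
    unfold deg at hd
    omega
  · have hss : insert w A ⊂ W := Finset.ssubset_iff_subset_ne.mpr ⟨hsub, hW⟩
    have hlt := hc.lt _ hss ⟨w, mem_insert_self _ _⟩
    have hpos : 0 < (I.filter (fun i => w ∈ f i ∧ f i ⊆ insert w A)).card := card_pos.mpr ⟨i, himem⟩
    refine ⟨⟨⟨w, mem_insert_self _ _⟩, hss, by omega⟩, ?_⟩
    intro j hj hwj hfj
    have hle : (I.filter (fun i => w ∈ f i ∧ f i ⊆ insert w A)).card ≤ 1 := by omega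
    exact (card_le_one.mp hle) j (mem_filter.mpr ⟨hj, hwj, hfj⟩) i himem

theorem bounds (hc : Circ W I f) (hE : Essential W I f) {S : Finset V}
    (hS : 2 ≤ S.card) (hSW : S ⊆ W) (hdeg : ∀ w ∈ W, w ∉ S → 3 ≤ deg I f w) :
    W.card + 2 ≤ 2 * S.card ∧ ∑ i ∈ I, (f i).card + 6 ≤ 5 * S.card := by
  classical
  have hWc : 2 ≤ W.card := hS.trans (card_le_card hSW)
  have hmax : ∀ w : V, ∀ i : E, ∃ A, (i ∈ I → w ∈ f i → Tight W I f A ∧ w ∉ A ∧
      (f i).erase w ⊆ A ∧ ∀ Z, Tight W I f Z → w ∉ Z → (A ∩ Z).Nonempty → Z ⊆ A) := by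
    intro w i
    by_cases h : i ∈ I ∧ w ∈ f i
    · obtain ⟨A, hA⟩ := exists_max hc (hc.sub i h.1 h.2) (hE i h.1 w h.2)
      exact ⟨A, fun _ _ => hA⟩
    · exact ⟨∅, fun h1 h2 => absurd ⟨h1, h2⟩ h⟩
  choose A hA using hmax
  have c1 : ∀ w i, i ∈ I → w ∈ f i → 3 ≤ deg I f w →
      Tight W I f (insert w (A w i)) ∧ ∀ j ∈ I, w ∈ f j → f j ⊆ insert w (A w i) → j = i := by
    intro w i hi hw hd
    obtain ⟨h1, h2, h3, _⟩ := hA w i hi hw
    exact claim1 hc hd hi hw h1 h2 h3
  have c2 : ∀ w i j, i ∈ I → j ∈ I → w ∈ f i → w ∈ f j → i ≠ j → 3 ≤ deg I f w →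
      Disjoint (A w i) (A w j) := by
    intro w i j hi hj hwi hwj hij hd
    by_contra hnd
    rw [disjoint_iff_inter_eq_empty, ← not_nonempty_iff_eq_empty, not_not] at hnd
    obtain ⟨h1, h2, h3, h4⟩ := hA w i hi hwi
    obtain ⟨g1, g2, g3, _⟩ := hA w j hj hwj
    have hsub := h4 _ g1 g2 hnd
    have := (c1 w i hi hwi hd).2 j hj hwj (by
      intro x hx
      by_cases h : x = w
      · exact h ▸ mem_insert_self _ _
      · exact mem_insert_of_mem (hsub (g3 (mem_erase.mpr ⟨h, hx⟩))))
    exact hij this.symm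
  have c3 : ∀ w w' i j, i ∈ I → j ∈ I → w ∈ f i → w' ∈ f i → w' ∈ f j → w ≠ w' → i ≠ j →
      3 ≤ deg I f w' → insert w' (A w' j) ⊆ A w i := by
    intro w w' i j hi hj hwi hwi' hwj' hww hij hd
    have hd2 := c2 w' i j hi hj hwi' hwj' hij hd
    have hw1 : w ∈ A w' i := (hA w' i hi hwi').2.2.1 (mem_erase.mpr ⟨hww, hwi⟩)
    have hw2 : w ∉ A w' j := fun h => (disjoint_left.mp hd2) hw1 h
    have ht := (c1 w' j hj hwj' hd).1
    refine (hA w i hi hwi).2.2.2 _ ht ?_ ?_
    · intro h
      rcases mem_insert.mp h with h | h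
      · exact hww h
      · exact hw2 h
    · refine ⟨w', mem_inter.mpr ⟨?_, mem_insert_self _ _⟩⟩
      exact (hA w i hi hwi).2.2.1 (mem_erase.mpr ⟨hww.symm, hwi'⟩)
  set W3 : Finset V := W.filter (fun w => 3 ≤ deg I f w) with hW3
  -- the relation
  have key : ∀ x ∈ W, ∑ w ∈ insert x W3, deg I f w + 1 ≤ (insert x W3).card + I.card := by
    intro x hx
    set P : Finset (V × E) := ((insert x W3) ×ˢ I).filter (fun p => p.1 ∈ f p.2) with hP
    have hPmem : ∀ p ∈ P, (p.1 = x ∨ 3 ≤ deg I f p.1) ∧ p.2 ∈ I ∧ p.1 ∈ f p.2 := by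
      intro p hp
      rw [hP, mem_filter, mem_product, mem_insert, hW3, mem_filter] at hp
      exact ⟨hp.1.1.imp id (fun h => h.2), hp.1.2, hp.2⟩
    have hPcard : P.card = ∑ w ∈ insert x W3, deg I f w := by
      rw [hP, card_filter, sum_product]
      apply sum_congr rfl
      intro w _
      unfold deg
      rw [card_filter]
    have hPne : P.Nonempty := by
      have h1 : 2 ≤ deg I f x := two_le_deg hc hWc hx
      have h2 : 0 < (I.filter (fun i => x ∈ f i)).card := by unfold deg at h1; omega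
      obtain ⟨i, hi⟩ := card_pos.mp h2
      rw [mem_filter] at hi
      exact ⟨(x, i), by rw [hP, mem_filter, mem_product]; exact ⟨⟨mem_insert_self _ _, hi.1⟩, hi.2⟩⟩
    have hleaf : ∀ P' ⊆ P, P'.Nonempty → ∃ p ∈ P',
        (∀ q ∈ P', q.2 = p.2 → q = p) ∨ (∀ q ∈ P', q.1 = p.1 → q = p) := by
      intro P' hP' hne
      rcases (P'.filter (fun p => 3 ≤ deg I f p.1 ∧ x ∉ A p.1 p.2)).eq_empty_or_nonempty with he | he
      · by_cases h3 : ∃ p ∈ P', 3 ≤ deg I f p.1
        · obtain ⟨p, hp, hp3⟩ := h3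
          refine ⟨p, hp, Or.inr ?_⟩
          intro q hq hqp
          by_contra hne'
          have h2 : q.2 ≠ p.2 := fun h => hne' (Prod.ext hqp h)
          have hx1 : x ∈ A p.1 p.2 := by
            by_contra hx1
            have : p ∈ P'.filter (fun p => 3 ≤ deg I f p.1 ∧ x ∉ A p.1 p.2) :=
              mem_filter.mpr ⟨hp, hp3, hx1⟩
            rw [he] at this
            simp at this
          have hx2 : x ∈ A q.1 q.2 := by
            by_contra hx1
            have : q ∈ P'.filter (fun p => 3 ≤ deg I f p.1 ∧ x ∉ A p.1 p.2) :=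
              mem_filter.mpr ⟨hq, by rw [hqp]; exact hp3, hx1⟩
            rw [he] at this
            simp at this
          obtain ⟨_, hpI, hpf⟩ := hPmem p (hP' hp)
          obtain ⟨_, hqI, hqf⟩ := hPmem q (hP' hq)
          rw [hqp] at hqf hx2
          exact (disjoint_left.mp (c2 p.1 p.2 q.2 hpI hqI hpf hqf h2.symm hp3)) hx1 hx2
        · obtain ⟨p, hp⟩ := hne
          refine ⟨p, hp, Or.inl ?_⟩
          intro q hq hqp
          have h1 : ∀ r ∈ P', r.1 = x := by
            intro r hr
            rcases (hPmem r (hP' hr)).1 with h | h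
            · exact h
            · exact absurd ⟨r, hr, h⟩ h3
          exact Prod.ext ((h1 q hq).trans (h1 p hp).symm) hqp
      · obtain ⟨p, hp, hmin⟩ := exists_min_image _ (fun p => (A p.1 p.2).card) he
        rw [mem_filter] at hp
        obtain ⟨hpP, hp3, hpx⟩ := hp
        by_cases hq : ∃ q ∈ P', q.2 = p.2 ∧ q ≠ p
        · obtain ⟨q, hq, hq2, hqp⟩ := hq
          refine ⟨q, hq, Or.inr ?_⟩
          intro r hr hrq
          by_contra hrne
          have hr2 : r.2 ≠ q.2 := fun h => hrne (Prod.ext hrq h)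
          have hq1 : q.1 ≠ p.1 := fun h => hqp (Prod.ext h hq2)
          obtain ⟨_, hpI, hpf⟩ := hPmem p (hP' hpP)
          obtain ⟨hq3, hqI, hqf⟩ := hPmem q (hP' hq)
          obtain ⟨_, hrI, hrf⟩ := hPmem r (hP' hr)
          rw [hq2] at hqf hqI hr2
          rw [hrq] at hrf
          have hqA : q.1 ∈ A p.1 p.2 := (hA p.1 p.2 hpI hpf).2.2.1 (mem_erase.mpr ⟨hq1, hqf⟩)
          have hqx : q.1 ≠ x := fun h => hpx (h ▸ hqA)
          have hq3' : 3 ≤ deg I f q.1 := hq3.resolve_left hqx
          have hsub := c3 p.1 q.1 p.2 r.2 hpI hrI hpf hqf hrf hq1.symm hr2.symm hq3'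
          have hlt : (A q.1 r.2).card < (A p.1 p.2).card := by
            have h1 := card_le_card hsub
            rw [card_insert_of_notMem (hA q.1 r.2 hrI hrf).2.1] at h1
            omega
          have hmem : r ∈ P'.filter (fun p => 3 ≤ deg I f p.1 ∧ x ∉ A p.1 p.2) := by
            refine mem_filter.mpr ⟨hr, by rw [hrq]; exact hq3', ?_⟩
            rw [hrq]
            exact fun h => hpx (hsub (mem_insert_of_mem h))
          have := hmin r hmem
          rw [hrq] at this
          omega
        · refine ⟨p, hpP, Or.inl ?_⟩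
          intro q hqP hq2
          by_contra hne'
          exact hq ⟨q, hqP, hq2, hne'⟩
    have hf := forest_count P.card P rfl hPne hleaf
    have hi1 : (P.image Prod.fst).card ≤ (insert x W3).card := by
      apply card_le_card
      intro y hy
      obtain ⟨p, hp, rfl⟩ := mem_image.mp hy
      rw [hP, mem_filter, mem_product] at hp
      exact hp.1.1
    have hi2 : (P.image Prod.snd).card ≤ I.card := by
      apply card_le_card
      intro y hy
      obtain ⟨p, hp, rfl⟩ := mem_image.mp hy
      exact (hPmem p hp).2.1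
    omega
  have hW3W : W3 ⊆ W := filter_subset _ _
  have hsum3 : W3.card * 3 ≤ ∑ w ∈ W3, deg I f w := by
    rw [← smul_eq_mul]
    apply card_nsmul_le_sum
    intro w hw
    exact (mem_filter.mp hw).2
  have hdc : ∑ i ∈ I, (f i).card = ∑ w ∈ W, deg I f w := by
    have h1 : ∀ i ∈ I, (f i).card = ∑ w ∈ W, (if w ∈ f i then 1 else 0) := by
      intro i hi
      rw [← card_filter]
      congr 1
      ext w
      rw [mem_filter]
      exact ⟨fun h => ⟨hc.sub i hi h, h⟩, fun h => h.2⟩
    rw [sum_congr rfl h1, sum_comm]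
    apply sum_congr rfl
    intro w _
    unfold deg
    rw [card_filter]
  -- there is a node of degree two
  obtain ⟨x, hx, hx3⟩ : ∃ x ∈ W, x ∉ W3 := by
    by_contra hno
    push Not at hno
    have hEq : W3 = W := Subset.antisymm hW3W hno
    have hne : W.Nonempty := by rw [← card_pos]; omega
    obtain ⟨x, hx⟩ := hne
    have hk := key x hx
    rw [hEq, insert_eq_of_mem hx] at hk
    rw [hEq] at hsum3
    have := hc.card
    omega
  have hk := key x hx
  rw [sum_insert hx3, card_insert_of_notMem hx3] at hk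
  have hdeg2 : ∀ w ∈ W \ W3, deg I f w = 2 := by
    intro w hw
    rw [mem_sdiff, hW3, mem_filter] at hw
    have h1 : 2 ≤ deg I f w := two_le_deg hc hWc hw.1
    have h2 : ¬ 3 ≤ deg I f w := fun h => hw.2 ⟨hw.1, h⟩
    omega
  have hx2 : deg I f x = 2 := hdeg2 x (mem_sdiff.mpr ⟨hx, hx3⟩)
  have hsplit : ∑ w ∈ W, deg I f w = ∑ w ∈ W \ W3, deg I f w + ∑ w ∈ W3, deg I f w :=
    (sum_sdiff hW3W).symm
  have hs2 : ∑ w ∈ W \ W3, deg I f w = (W \ W3).card * 2 := by
    rw [sum_congr rfl hdeg2, sum_const, smul_eq_mul]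
  have hcsd : (W \ W3).card + W3.card = W.card := card_sdiff_add_card_eq_card hW3W
  have hle : (W \ W3).card ≤ S.card := by
    apply card_le_card
    intro w hw
    by_contra hwS
    rw [mem_sdiff, hW3, mem_filter] at hw
    exact hw.2 ⟨hw.1, hdeg w hw.1 hwS⟩
  have hIc := hc.card
  rw [hdc, hsplit, hs2]
  constructor <;> omega

end

end Pool.SSO
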