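import Pool.Agent.SSO.Defs
import Pool.Agent.SSO.Bounds

/-!
# Models: from a strong orientation to a minimal circuit model
-/

namespace Pool.SSO

open Finset Relation

variable {V E : Type} [DecidableEq V] [DecidableEq E]

/-- a circuit on `W` modelled by disjoint linked groups of hyperedges of `H` -/
structure Model (H : Hypergraph V E) (S W : Finset V) (I : Finset E) (f : E → Finset V)
    (φ : E → Finset E) : Prop where
  term : S ⊆ W
  circ : Circ W I f
  disj : ∀ i ∈ I, ∀ j ∈ I, i ≠ j → Disjoint (φ i) (φ j)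
  conn : ∀ i ∈ I, ∀ a ∈ φ i, ∀ b ∈ φ i,
    ReflTransGen (fun x y => x ∈ φ i ∧ y ∈ φ i ∧ ∃ v, v ∈ H.edge x ∧ v ∈ H.edge y) a b
  cover : ∀ i ∈ I, ∀ v ∈ f i, ∃ e ∈ φ i, v ∈ H.edge e

lemma rtg_mono {α : Type*} {r p : α → α → Prop} (h : ∀ a b, r a b → p a b) {a b : α}
    (hab : ReflTransGen r a b) : ReflTransGen p a b := by
  induction hab with
  | refl => exact ReflTransGen.refl
  | tail _ h2 ih => exact ih.tail (h _ _ h2)

lemma rtg_lift {α β : Type*} {r : α → α → Prop} {p : β → β → Prop} (g : α → β)
    (h : ∀ a b, r a b → p (g a) (g b)) {a b : α} (hab : ReflTransGen r a b) :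
    ReflTransGen p (g a) (g b) := by
  induction hab with
  | refl => exact ReflTransGen.refl
  | tail _ h2 ih => exact ih.tail (h _ _ h2)

/-- crossing step -/
lemma exists_cross {α : Type*} {r : α → α → Prop} {Y : Finset α} {s w : α} {u : α}
    (h : ReflTransGen r u w) (hw : w ∈ Y) :
    u ∉ Y → ReflTransGen r s u →
      ∃ a b, r a b ∧ a ∉ Y ∧ b ∈ Y ∧ ReflTransGen r s a ∧ ReflTransGen r b w ∧
        ReflTransGen r s b ∧ ReflTransGen r a w := by
  induction h using ReflTransGen.head_induction_on with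
  | refl => exact fun hu => absurd hw hu
  | head hac hcw ih =>
    rename_i a c
    intro ha hsa
    by_cases hc : c ∈ Y
    · exact ⟨a, c, hac, ha, hc, hsa, hcw, hsa.tail hac, hcw.head hac⟩
    · exact ih hc (hsa.tail hac)

/-- the initial model -/
lemma exists_model [Fintype V] [Fintype E] (H : Hypergraph V E) {S : Finset V} (hS : 2 ≤ S.card) (o : Orientation H)
    (ho : o.Strong S) : ∃ W I f φ, Model H S W I f φ := by
  classical
  obtain ⟨s0, hs0, t0, ht0, hst⟩ := one_lt_card.mp hS
  let W : Finset V := univ.filter (fun v => ReflTransGen o.Step s0 v ∧ ReflTransGen o.Step v s0)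
  have hSW : S ⊆ W := by
    intro s hs
    exact mem_filter.mpr ⟨mem_univ _, ho s0 hs0 s hs, ho s hs s0 hs0⟩
  have hWmem : ∀ v, v ∈ W ↔ ReflTransGen o.Step s0 v ∧ ReflTransGen o.Step v s0 := by
    intro v; simp [W]
  let Φ : V → Finset E := fun v => univ.filter (fun e => o.head e = v)
  let F : V → Finset V := fun v => (Φ v).biUnion H.edge ∩ W
  have hFmem : ∀ v x, x ∈ F v ↔ (∃ e, o.head e = v ∧ x ∈ H.edge e) ∧ x ∈ W := by
    intro v x; simp [F, Φ]
  have hent : ∀ Y : Finset V, Y ⊂ W → Y.Nonempty → ∃ a b, a ∉ Y ∧ b ∈ Y ∧ a ∈ F b ∧ a ≠ b ∧ a ∈ W := by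
    intro Y hY hne
    obtain ⟨w, hw⟩ := hne
    obtain ⟨u, huW, huY⟩ := exists_of_ssubset hY
    have hwW := (hWmem w).mp (hY.1 hw)
    have huW' := (hWmem u).mp huW
    obtain ⟨a, b, hab, ha, hb, h1, h2, h3, h4⟩ :=
      exists_cross (s := s0) (huW'.2.trans hwW.1) hw huY huW'.1
    have haW : a ∈ W := (hWmem a).mpr ⟨h1, h4.trans hwW.2⟩
    obtain ⟨e, he1, he2, he3⟩ := hab
    exact ⟨a, b, ha, hb, (hFmem b a).mpr ⟨⟨e, he3.symm, he1⟩, haW⟩, fun h => ha (h ▸ hb), haW⟩
  have hWc : 2 ≤ W.card := hS.trans (card_le_card hSW)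
  have hv : ∀ v ∈ W, ∃ a, a ≠ v ∧ a ∈ F v := by
    intro v hv
    have h1 : ({v} : Finset V) ⊂ W := by
      refine Finset.ssubset_iff_subset_ne.mpr ⟨singleton_subset_iff.mpr hv, ?_⟩
      intro h
      rw [← h, card_singleton] at hWc
      omega
    obtain ⟨a, b, ha, hb, hab, hne, _⟩ := hent {v} h1 (singleton_nonempty v)
    rw [mem_singleton] at hb
    exact ⟨a, hb ▸ hne, hb ▸ hab⟩
  have hrep : ∀ v : V, ∃ e : E, v ∈ W → o.head e = v := by
    intro v
    by_cases h : v ∈ W
    · obtain ⟨a, _, ha⟩ := hv v h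
      obtain ⟨⟨e, he, _⟩, _⟩ := (hFmem v a).mp ha
      exact ⟨e, fun _ => he⟩
    · obtain ⟨a, _, ha⟩ := hv s0 (hSW hs0)
      obtain ⟨⟨e, he, _⟩, _⟩ := (hFmem s0 a).mp ha
      exact ⟨e, fun h' => absurd h' h⟩
  choose r hr using hrep
  have hvF : ∀ v ∈ W, v ∈ F v := fun v h =>
    (hFmem v v).mpr ⟨⟨r v, hr v h, by have := o.head_mem (r v); rwa [hr v h] at this⟩, h⟩
  have hinj : Set.InjOn r (W : Set V) := by
    intro a ha b hb hab
    rw [← hr a (mem_coe.mp ha), ← hr b (mem_coe.mp hb), hab]
  have hImem : ∀ i ∈ W.image r, o.head i ∈ W ∧ r (o.head i) = i := by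
    intro i hi
    obtain ⟨v, hv, rfl⟩ := mem_image.mp hi
    rw [hr v hv]
    exact ⟨hv, rfl⟩
  refine ⟨W, W.image r, fun i => F (o.head i), fun i => Φ (o.head i), hSW, ?_, ?_, ?_, ?_⟩
  · refine ⟨card_image_of_injOn hinj, fun i _ => inter_subset_right, ?_, ?_⟩
    · intro i hi
      obtain ⟨h1, _⟩ := hImem i hi
      obtain ⟨a, ha, haF⟩ := hv _ h1
      exact one_lt_card.mpr ⟨a, haF, _, hvF _ h1, ha⟩
    · intro Y hY hne
      obtain ⟨a, b, ha, hb, hab, _, _⟩ := hent Y hY hne
      have h1 : cnt (W.image r) (fun i => F (o.head i)) Y ≤ (Y.erase b).card := by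
        unfold cnt
        apply card_le_card_of_injOn (fun i => o.head i)
        · intro i hi
          rw [mem_coe, mem_filter] at hi
          obtain ⟨h1, h2⟩ := hImem i hi.1
          rw [mem_coe, mem_erase]
          refine ⟨?_, hi.2 (hvF _ h1)⟩
          intro h
          have := hi.2 (h ▸ hab)
          exact ha this
        · intro i hi j hj hij
          rw [mem_coe, mem_filter] at hi hj
          rw [← (hImem i hi.1).2, ← (hImem j hj.1).2]
          exact congrArg r hij
      rw [card_erase_of_mem hb] at h1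
      have h2 : 0 < Y.card := card_pos.mpr ⟨b, hb⟩
      omega
  · intro i hi j hj hij
    rw [disjoint_left]
    intro e he1 he2
    simp only [Φ, mem_filter, mem_univ, true_and] at he1 he2
    apply hij
    rw [← (hImem i hi).2, ← (hImem j hj).2, ← he1, ← he2]
  · intro i _ a ha b hb
    apply ReflTransGen.single
    refine ⟨ha, hb, o.head i, ?_, ?_⟩
    · simp only [Φ, mem_filter, mem_univ, true_and] at ha
      rw [← ha]; exact o.head_mem a
    · simp only [Φ, mem_filter, mem_univ, true_and] at hb
      rw [← hb]; exact o.head_mem b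
  · intro i _ v hv
    obtain ⟨⟨e, he, hve⟩, _⟩ := (hFmem _ v).mp hv
    exact ⟨e, by simp [Φ, he], hve⟩

/-- the measure -/
def msr (W : Finset V) (I : Finset E) (f : E → Finset V) : ℕ := W.card + ∑ i ∈ I, (f i).card

lemma trim_step {H : Hypergraph V E} {S W : Finset V} {I : Finset E} {f : E → Finset V}
    {φ : E → Finset E} (hS : 2 ≤ S.card) (hM : Model H S W I f φ) {i : E} (hi : i ∈ I) {w : V}
    (hw : w ∈ f i) (hno : ¬ ∃ Y, Tight W I f Y ∧ w ∉ Y ∧ (f i).erase w ⊆ Y) :
    ∃ W' I' f' φ', Model H S W' I' f' φ' ∧ msr W' I' f' < msr W I f := by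
  classical
  have hc := hM.circ
  have hWc : 2 ≤ W.card := hS.trans (card_le_card hM.term)
  have h3 : 3 ≤ (f i).card := by
    by_contra hlt
    have h2 : (f i).card = 2 := le_antisymm (by omega) (hc.two i hi)
    have h1 : ((f i).erase w).card = 1 := by rw [card_erase_of_mem hw]; omega
    obtain ⟨x, hx⟩ := card_eq_one.mp h1
    have hxf : x ∈ (f i).erase w := by rw [hx]; exact mem_singleton_self x
    apply hno
    refine ⟨{x}, ⟨singleton_nonempty x, ?_, ?_⟩, ?_, hx.subset⟩
    · refine Finset.ssubset_iff_subset_ne.mpr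
        ⟨singleton_subset_iff.mpr (hc.sub i hi (mem_of_mem_erase hxf)), ?_⟩
      intro h
      rw [← h, card_singleton] at hWc
      omega
    · have : cnt I f {x} = 0 := by
        unfold cnt
        rw [card_eq_zero, filter_eq_empty_iff]
        intro j hj hsub
        have h4 := card_le_card hsub
        have h5 := hc.two j hj
        rw [card_singleton] at h4
        omega
      rw [this, card_singleton]
    · rw [mem_singleton]
      exact (ne_of_mem_erase hxf).symm
  set f' : E → Finset V := Function.update f i ((f i).erase w) with hf'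
  have hfi : f' i = (f i).erase w := by rw [hf', Function.update_self]
  have hfj : ∀ j, j ≠ i → f' j = f j := fun j hj => by rw [hf', Function.update_of_ne hj]
  have hsub : ∀ j, f' j ⊆ f j := by
    intro j
    by_cases h : j = i
    · rw [h, hfi]; exact erase_subset _ _
    · rw [hfj j h]
  refine ⟨W, I, f', φ, ⟨hM.term, ⟨hc.card, fun j hj => (hsub j).trans (hc.sub j hj), ?_, ?_⟩,
    hM.disj, hM.conn, fun j hj v hv => hM.cover j hj v (hsub j hv)⟩, ?_⟩
  · intro j hj
    by_cases h : j = i
    · rw [h, hfi, card_erase_of_mem hw]; omega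
    · rw [hfj j h]; exact hc.two j hj
  · intro Y hY hne
    have hlt := hc.lt Y hY hne
    by_cases hcase : f' i ⊆ Y ∧ w ∉ Y
    · by_contra hge
      apply hno
      refine ⟨Y, ⟨hne, hY, ?_⟩, hcase.2, by rw [← hfi]; exact hcase.1⟩
      have h1 : cnt I f' Y ≤ cnt I f Y + 1 := by
        unfold cnt
        have : I.filter (fun j => f' j ⊆ Y) ⊆ insert i (I.filter (fun j => f j ⊆ Y)) := by
          intro j hj
          rw [mem_filter] at hj
          by_cases h : j = i
          · rw [h]; exact mem_insert_self _ _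
          · rw [hfj j h] at hj
            exact mem_insert_of_mem (mem_filter.mpr hj)
        exact (card_le_card this).trans (card_insert_le _ _)
      omega
    · refine lt_of_le_of_lt ?_ hlt
      unfold cnt
      apply card_le_card
      intro j hj
      rw [mem_filter] at hj ⊢
      refine ⟨hj.1, ?_⟩
      by_cases h : j = i
      · subst h
        have hwY : w ∈ Y := by
          by_contra hwY
          exact hcase ⟨hj.2, hwY⟩
        intro x hx
        by_cases hxw : x = w
        · rw [hxw]; exact hwY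
        · apply hj.2
          rw [hfi]
          exact mem_erase.mpr ⟨hxw, hx⟩
      · rw [← hfj j h]; exact hj.2
  · unfold msr
    have : ∑ j ∈ I, (f' j).card < ∑ j ∈ I, (f j).card := by
      apply sum_lt_sum (fun j _ => card_le_card (hsub j))
      refine ⟨i, hi, ?_⟩
      rw [hfi, card_erase_of_mem hw]; omega
    omega

lemma elim_step {H : Hypergraph V E} {S W : Finset V} {I : Finset E} {f : E → Finset V}
    {φ : E → Finset E} (hS : 2 ≤ S.card) (hM : Model H S W I f φ) {w : V} (hwW : w ∈ W)
    (hwS : w ∉ S) (hd : ¬ 3 ≤ deg I f w) :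
    ∃ W' I' f' φ', Model H S W' I' f' φ' ∧ msr W' I' f' < msr W I f := by
  classical
  have hc := hM.circ
  have hWc : 2 ≤ W.card := hS.trans (card_le_card hM.term)
  have hWc3 : 3 ≤ W.card := by
    have : insert w S ⊆ W := insert_subset hwW hM.term
    have := card_le_card this
    rw [card_insert_of_notMem hwS] at this
    omega
  have hd2 : deg I f w = 2 := le_antisymm (by omega) (two_le_deg hc hWc hwW)
  obtain ⟨i, j, hij, hset⟩ := card_eq_two.mp hd2
  have himem : i ∈ I.filter (fun i => w ∈ f i) := by rw [hset]; exact mem_insert_self _ _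
  have hjmem : j ∈ I.filter (fun i => w ∈ f i) := by
    rw [hset]; exact mem_insert_of_mem (mem_singleton_self _)
  obtain ⟨hi, hwi⟩ := mem_filter.mp himem
  obtain ⟨hj, hwj⟩ := mem_filter.mp hjmem
  have honly : ∀ l ∈ I, w ∈ f l → l = i ∨ l = j := by
    intro l hl hwl
    have : l ∈ I.filter (fun i => w ∈ f i) := mem_filter.mpr ⟨hl, hwl⟩
    rw [hset] at this
    simpa using this
  set f' : E → Finset V := Function.update f i ((f i ∪ f j).erase w) with hf'
  have hfi : f' i = (f i ∪ f j).erase w := by rw [hf', Function.update_self]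
  have hfl : ∀ l, l ≠ i → f' l = f l := fun l hl => by rw [hf', Function.update_of_ne hl]
  set φ' : E → Finset E := Function.update φ i (φ i ∪ φ j) with hφ'
  have hφi : φ' i = φ i ∪ φ j := by rw [hφ', Function.update_self]
  have hφl : ∀ l, l ≠ i → φ' l = φ l := fun l hl => by rw [hφ', Function.update_of_ne hl]
  refine ⟨W.erase w, I.erase j, f', φ', ⟨?_, ⟨?_, ?_, ?_, ?_⟩, ?_, ?_, ?_⟩, ?_⟩
  · exact fun s hs => mem_erase.mpr ⟨fun h => hwS (h ▸ hs), hM.term hs⟩
  · rw [card_erase_of_mem hj, card_erase_of_mem hwW, hc.card]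
  · intro l hl
    obtain ⟨hlj, hlI⟩ := mem_erase.mp hl
    by_cases h : l = i
    · rw [h, hfi]
      exact erase_subset_erase _ (union_subset (hc.sub i hi) (hc.sub j hj))
    · rw [hfl l h]
      intro x hx
      refine mem_erase.mpr ⟨?_, hc.sub l hlI hx⟩
      intro hxw
      rcases honly l hlI (hxw ▸ hx) with h' | h'
      · exact h h'
      · exact hlj h'
  · intro l hl
    obtain ⟨hlj, hlI⟩ := mem_erase.mp hl
    by_cases h : l = i
    · rw [h, hfi]
      by_contra hlt
      have h1 : w ∈ f i ∪ f j := mem_union_left _ hwi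
      have h2 : (f i ∪ f j).card ≤ 2 := by
        rw [card_erase_of_mem h1] at hlt
        omega
      have hei : f i = f i ∪ f j := eq_of_subset_of_card_le subset_union_left (h2.trans (hc.two i hi))
      have hej : f j = f i ∪ f j := eq_of_subset_of_card_le subset_union_right (h2.trans (hc.two j hj))
      have hYW : f i ∪ f j ⊂ W := by
        refine Finset.ssubset_iff_subset_ne.mpr ⟨union_subset (hc.sub i hi) (hc.sub j hj), ?_⟩
        intro h
        rw [h] at h2
        omega
      have hlt2 := hc.lt _ hYW ⟨w, h1⟩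
      have h2c : 2 ≤ cnt I f (f i ∪ f j) := by
        unfold cnt
        have : ({i, j} : Finset E) ⊆ I.filter (fun l => f l ⊆ f i ∪ f j) := by
          intro l hl
          rw [mem_insert, mem_singleton] at hl
          rcases hl with rfl | rfl
          · exact mem_filter.mpr ⟨hi, subset_union_left⟩
          · exact mem_filter.mpr ⟨hj, subset_union_right⟩
        have := card_le_card this
        rw [card_pair hij] at this
        exact this
      omega
    · rw [hfl l h]; exact hc.two l hlI
  · intro Y hY hne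
    have hwY : w ∉ Y := fun h => (mem_erase.mp (hY.1 h)).1 rfl
    by_cases hcase : f' i ⊆ Y
    · have hins : insert w Y ⊂ W := by
        refine Finset.ssubset_iff_subset_ne.mpr ⟨insert_subset hwW (hY.1.trans (erase_subset _ _)), ?_⟩
        intro h
        apply hY.2
        intro x hx
        obtain ⟨hx1, hx2⟩ := mem_erase.mp hx
        rw [← h] at hx2
        exact (mem_insert.mp hx2).resolve_left hx1
      have hlt := hc.lt _ hins ⟨w, mem_insert_self _ _⟩
      rw [card_insert_of_notMem hwY] at hlt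
      have hu : f i ∪ f j ⊆ insert w Y := by
        intro x hx
        by_cases hxw : x = w
        · rw [hxw]; exact mem_insert_self _ _
        · apply mem_insert_of_mem
          apply hcase
          rw [hfi]
          exact mem_erase.mpr ⟨hxw, hx⟩
      have hsub : (I.erase j).filter (fun l => f' l ⊆ Y) ⊆
          (I.filter (fun l => f l ⊆ insert w Y)).erase j := by
        intro l hl
        rw [mem_filter, mem_erase] at hl
        rw [mem_erase, mem_filter]
        refine ⟨hl.1.1, hl.1.2, ?_⟩
        by_cases h : l = i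
        · rw [h]; exact subset_union_left.trans hu
        · rw [← hfl l h]; exact hl.2.trans (subset_insert _ _)
      have h1 := card_le_card hsub
      rw [card_erase_of_mem (mem_filter.mpr ⟨hj, subset_union_right.trans hu⟩)] at h1
      unfold cnt at hlt ⊢
      have h2 : 0 < Y.card := card_pos.mpr hne
      omega
    · have hYW : Y ⊂ W := lt_of_lt_of_le hY (erase_subset _ _)
      refine lt_of_le_of_lt ?_ (hc.lt Y hYW hne)
      unfold cnt
      apply card_le_card
      intro l hl
      rw [mem_filter, mem_erase] at hl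
      rw [mem_filter]
      refine ⟨hl.1.2, ?_⟩
      by_cases h : l = i
      · rw [h] at hl
        exact absurd hl.2 hcase
      · rw [← hfl l h]; exact hl.2
  · intro l hl l' hl' hne
    obtain ⟨hlj, hlI⟩ := mem_erase.mp hl
    obtain ⟨hlj', hlI'⟩ := mem_erase.mp hl'
    by_cases h : l = i
    · have h' : l' ≠ i := fun h' => hne (h.trans h'.symm)
      rw [h, hφi, hφl l' h', disjoint_union_left]
      exact ⟨hM.disj i hi l' hlI' (fun h => h' h.symm), hM.disj j hj l' hlI' (fun h => hlj' h.symm)⟩
    · by_cases h' : l' = i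
      · rw [h', hφi, hφl l h, disjoint_union_right]
        exact ⟨hM.disj l hlI i hi h, hM.disj l hlI j hj hlj⟩
      · rw [hφl l h, hφl l' h']
        exact hM.disj l hlI l' hlI' hne
  · intro l hl
    obtain ⟨hlj, hlI⟩ := mem_erase.mp hl
    by_cases h : l = i
    · rw [h, hφi]
      obtain ⟨e1, he1, hw1⟩ := hM.cover i hi w hwi
      obtain ⟨e2, he2, hw2⟩ := hM.cover j hj w hwj
      have lift1 : ∀ a ∈ φ i, ∀ b ∈ φ i, ReflTransGen (fun x y => x ∈ φ i ∪ φ j ∧ y ∈ φ i ∪ φ j ∧
          ∃ v, v ∈ H.edge x ∧ v ∈ H.edge y) a b := by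
        intro a ha b hb
        exact rtg_mono (fun x y hxy => ⟨mem_union_left _ hxy.1, mem_union_left _ hxy.2.1,
          hxy.2.2⟩) (hM.conn i hi a ha b hb)
      have lift2 : ∀ a ∈ φ j, ∀ b ∈ φ j, ReflTransGen (fun x y => x ∈ φ i ∪ φ j ∧ y ∈ φ i ∪ φ j ∧
          ∃ v, v ∈ H.edge x ∧ v ∈ H.edge y) a b := by
        intro a ha b hb
        exact rtg_mono (fun x y hxy => ⟨mem_union_right _ hxy.1, mem_union_right _ hxy.2.1,
          hxy.2.2⟩) (hM.conn j hj a ha b hb)
      have m1 : e1 ∈ φ i ∪ φ j := mem_union_left _ he1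
      have m2 : e2 ∈ φ i ∪ φ j := mem_union_right _ he2
      intro a ha b hb
      rcases mem_union.mp ha with ha | ha <;> rcases mem_union.mp hb with hb | hb
      · exact lift1 a ha b hb
      · exact ((lift1 a ha e1 he1).tail ⟨m1, m2, w, hw1, hw2⟩).trans (lift2 e2 he2 b hb)
      · exact ((lift2 a ha e2 he2).tail ⟨m2, m1, w, hw2, hw1⟩).trans (lift1 e1 he1 b hb)
      · exact lift2 a ha b hb
    · rw [hφl l h]
      exact hM.conn l hlI
  · intro l hl v hv
    obtain ⟨hlj, hlI⟩ := mem_erase.mp hl
    by_cases h : l = i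
    · rw [h, hfi] at hv
      rw [h, hφi]
      rcases mem_union.mp (mem_of_mem_erase hv) with hv | hv
      · obtain ⟨e, he, hve⟩ := hM.cover i hi v hv
        exact ⟨e, mem_union_left _ he, hve⟩
      · obtain ⟨e, he, hve⟩ := hM.cover j hj v hv
        exact ⟨e, mem_union_right _ he, hve⟩
    · rw [hfl l h] at hv
      rw [hφl l h]
      exact hM.cover l hlI v hv
  · unfold msr
    have h1 : ∑ l ∈ I.erase j, (f' l).card ≤ ∑ l ∈ I, (f l).card := by
      have hiIj : i ∈ I.erase j := mem_erase.mpr ⟨hij, hi⟩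
      rw [← add_sum_erase _ _ hiIj, ← add_sum_erase I _ hj, ← add_sum_erase (I.erase j) _ hiIj, hfi,
        sum_congr rfl (fun l hl => by rw [hfl l (ne_of_mem_erase hl)])]
      have h2 : ((f i ∪ f j).erase w).card ≤ (f i).card + (f j).card :=
        (card_le_card (erase_subset _ _)).trans (card_union_le _ _)
      omega
    rw [card_erase_of_mem hwW]
    omega

/-- a model all of whose incidences are essential and whose nonterminals have degree at least 3 -/
lemma exists_good {H : Hypergraph V E} {S : Finset V} (hS : 2 ≤ S.card) :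
    ∀ (n : ℕ) (W : Finset V) (I : Finset E) (f : E → Finset V) (φ : E → Finset E),
      Model H S W I f φ → msr W I f ≤ n →
      ∃ W I f φ, Model H S W I f φ ∧ Essential W I f ∧ ∀ w ∈ W, w ∉ S → 3 ≤ deg I f w := by
  intro n
  induction n with
  | zero =>
    intro W I f φ hM hn
    exfalso
    have := hS.trans (card_le_card hM.term)
    unfold msr at hn
    omega
  | succ n ih =>
    intro W I f φ hM hn
    by_cases hE : Essential W I f
    · by_cases hd : ∀ w ∈ W, w ∉ S → 3 ≤ deg I f w
      · exact ⟨W, I, f, φ, hM, hE, hd⟩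
      · push Not at hd
        obtain ⟨w, hw, hwS, hd⟩ := hd
        obtain ⟨W', I', f', φ', hM', hlt⟩ := elim_step hS hM hw hwS (by omega)
        exact ih W' I' f' φ' hM' (by omega)
    · unfold Essential at hE
      push Not at hE
      obtain ⟨i, hi, w, hw, hno⟩ := hE
      obtain ⟨W', I', f', φ', hM', hlt⟩ := trim_step hS hM hi hw (by
        rintro ⟨Y, h1, h2, h3⟩
        exact hno Y h1 h2 h3)
      exact ih W' I' f' φ' hM' (by omega)

end Pool.SSO
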