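import Pool.Agent.SSO.FromPattern
import Pool.Agent.SSO.Model

/-!
# Sharpness: a cubic caterpillar together with the hyperedge of all its leaves

Nodes `0, ..., 2m+1`; hyperedge `t ≥ 1` is `{par t, t}` (a tree edge), hyperedge `0` is the set of leaves.
-/

namespace Pool.SSO

open Finset Relation

/-- the other end of the tree edge with upper end `t` -/
def par (t : ℕ) : ℕ := if t % 2 = 0 then t - 1 else t - 2

/-- the nodes of the hyperedge `t` -/
def inEdge (m t x : ℕ) : Prop := (t = 0 ∧ (x % 2 = 0 ∨ x = 2 * m + 1)) ∨ (t ≠ 0 ∧ (x = t ∨ x = par t))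

instance (m t x : ℕ) : Decidable (inEdge m t x) := by unfold inEdge; infer_instance

/-- the caterpillar hypergraph -/
def cat (m : ℕ) : Hypergraph (Fin (2 * m + 2)) (Fin (2 * m + 2)) where
  edge t := univ.filter (fun x => inEdge m t.1 x.1)
  two_le_card t := by
    by_cases h : t.1 = 0
    · refine one_lt_card.mpr ⟨⟨0, by omega⟩, ?_, ⟨2 * m + 1, by omega⟩, ?_, ?_⟩
      · rw [mem_filter]; exact ⟨mem_univ _, Or.inl ⟨h, Or.inl rfl⟩⟩
      · rw [mem_filter]; exact ⟨mem_univ _, Or.inl ⟨h, Or.inr rfl⟩⟩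
      · intro h'; have := congrArg Fin.val h'; simp at this
    · have hp : par t.1 < t.1 := by unfold par; split_ifs <;> omega
      refine one_lt_card.mpr ⟨t, ?_, ⟨par t.1, by have := t.2; omega⟩, ?_, ?_⟩
      · rw [mem_filter]; exact ⟨mem_univ _, Or.inr ⟨h, Or.inl rfl⟩⟩
      · rw [mem_filter]; exact ⟨mem_univ _, Or.inr ⟨h, Or.inr rfl⟩⟩
      · intro h'; have := congrArg Fin.val h'; simp at this; omega

lemma mem_cat {m : ℕ} {t x : Fin (2 * m + 2)} : x ∈ (cat m).edge t ↔ inEdge m t.1 x.1 := by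
  simp [cat]

/-- the leaves -/
def leaves (m : ℕ) : Finset (Fin (2 * m + 2)) := univ.filter (fun x => x.1 % 2 = 0 ∨ x.1 = 2 * m + 1)

lemma mem_leaves {m : ℕ} {x : Fin (2 * m + 2)} : x ∈ leaves m ↔ (x.1 % 2 = 0 ∨ x.1 = 2 * m + 1) := by
  simp [leaves]

lemma card_leaves (m : ℕ) : (leaves m).card = m + 2 := by
  have h : leaves m = (univ : Finset (Fin (m + 2))).image
      (fun j => (⟨min (2 * j.1) (2 * m + 1), by omega⟩ : Fin (2 * m + 2))) := by
    ext x
    rw [mem_leaves, mem_image]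
    constructor
    · rintro (h | h)
      · refine ⟨⟨x.1 / 2, by have := x.2; omega⟩, mem_univ _, ?_⟩
        apply Fin.ext
        simp only
        have := x.2
        omega
      · refine ⟨⟨m + 1, by omega⟩, mem_univ _, ?_⟩
        apply Fin.ext
        simp only
        omega
    · rintro ⟨j, _, rfl⟩
      simp only
      have := j.2
      omega
  rw [h, card_image_of_injective, card_univ, Fintype.card_fin]
  intro a b hab
  have := congrArg Fin.val hab
  simp only at this
  apply Fin.ext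
  have := a.2
  have := b.2
  omega

lemma cat_strong (m : ℕ) : ∃ o : Orientation (cat m), o.Strong (leaves m) := by
  have hz : 0 < 2 * m + 2 := by omega
  let z : Fin (2 * m + 2) := ⟨0, hz⟩
  let o : Orientation (cat m) := ⟨fun t => t, fun t => by
    rw [mem_cat]
    by_cases h : t.1 = 0
    · exact Or.inl ⟨h, Or.inl (by rw [h])⟩
    · exact Or.inr ⟨h, Or.inl rfl⟩⟩
  refine ⟨o, ?_⟩
  have h1 : ∀ x ∈ leaves m, ReflTransGen o.Step x z := by
    intro x hx
    by_cases h : x = z
    · rw [h]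
    · exact ReflTransGen.single ⟨z, mem_cat.mpr (Or.inl ⟨rfl, mem_leaves.mp hx⟩), h, rfl⟩
  have h2 : ∀ n (hn : n < 2 * m + 2), ReflTransGen o.Step z ⟨n, hn⟩ := by
    intro n
    induction n using Nat.strong_induction_on with
    | _ n ih =>
      intro hn
      by_cases h : n = 0
      · subst h; exact ReflTransGen.refl
      · have hp : par n < n := by unfold par; split_ifs <;> omega
        refine (ih (par n) hp (by omega)).tail ⟨⟨n, hn⟩, mem_cat.mpr (Or.inr ⟨h, Or.inr rfl⟩), ?_, rfl⟩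
        intro h'
        have := congrArg Fin.val h'
        simp only [o] at this
        omega
  intro u hu v _
  exact (h1 u hu).trans (h2 v.1 v.2)

/-- induction along an induced connected subgraph -/
lemma induce_induct {α : Type*} (G : SimpleGraph α) (C : Set α) (hC : (G.induce C).Connected)
    {Q : α → Prop} (hQ : ∀ x ∈ C, ∀ y ∈ C, G.Adj x y → Q x → Q y) {x y : α} (hx : x ∈ C)
    (hy : y ∈ C) (h : Q x) : Q y := by
  obtain ⟨p⟩ := hC.preconnected ⟨x, hx⟩ ⟨y, hy⟩
  have key : ∀ (a b : C), (G.induce C).Walk a b → Q a.1 → Q b.1 := by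
    intro a b p
    induction p with
    | nil => exact id
    | cons hadj _ ih => exact fun ha => ih (hQ _ (Subtype.mem _) _ (Subtype.mem _) hadj ha)
  exact key _ _ p h

/-- branch of a node with respect to the internal node `t` -/
def side (t x : ℕ) : ℕ := if x < t then 0 else if x = t + 1 then 1 else 2

/-- branch of a tree edge with respect to the internal node `t` -/
def eside (t s : ℕ) : ℕ := if s ≤ t then 0 else if s = t + 1 then 1 else 2

lemma side_eq {m t s x : ℕ} (ht : t % 2 = 1) (hs : s ≠ 0) (hx : inEdge m s x) (hxt : x ≠ t) :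
    side t x = eside t s := by
  unfold inEdge par at hx
  unfold side eside
  rcases hx with ⟨h, _⟩ | ⟨_, h⟩
  · exact absurd h hs
  · split_ifs at h ⊢ <;> omega

lemma at_t {m t s : ℕ} (ht : t % 2 = 1) (htm : t < 2 * m + 1) (h : inEdge m s t) :
    s = t ∨ s = t + 1 ∨ s = t + 2 := by
  unfold inEdge par at h
  rcases h with ⟨_, h⟩ | ⟨_, h⟩
  · omega
  · split_ifs at h <;> omega

section lower
variable {m : ℕ} {W : Finset (Fin (2 * m + 2))} {F : Fin (2 * m + 2) → Finset (Fin (2 * m + 2))}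
  {C : Fin (2 * m + 2) → Set (Fin (2 * m + 2) ⊕ (Fin (2 * m + 2) × Fin (2 * m + 2)))}

/-- the hyperedges at `t` used by the group of `w` -/
noncomputable def tok (C : Fin (2 * m + 2) → Set (Fin (2 * m + 2) ⊕ (Fin (2 * m + 2) × Fin (2 * m + 2))))
    (t w : Fin (2 * m + 2)) : Finset (Fin (2 * m + 2)) := by
  classical
  exact univ.filter (fun e => Sum.inl e ∈ C w ∧ t ∈ (cat m).edge e)

lemma mem_tok {t w e : Fin (2 * m + 2)} :
    e ∈ tok C t w ↔ Sum.inl e ∈ C w ∧ t ∈ (cat m).edge e := by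
  classical
  unfold tok
  simp

lemma cross_two {t b a : Fin (2 * m + 2)} (ht : t.1 % 2 = 1)
    (hconn : ((linkGraph (cat m)).induce (C b)).Connected)
    (hbb : Sum.inr (b, b) ∈ C b) (hab : Sum.inr (a, b) ∈ C b) (hbt : b ≠ t) (hat : a ≠ t)
    (hside : side t.1 a.1 ≠ side t.1 b.1)
    (h0 : ∀ z : Fin (2 * m + 2), z.1 = 0 → Sum.inl z ∉ C b) : 2 ≤ (tok C t b).card := by
  classical
  by_contra hlt
  have hone : ∀ e e', Sum.inl e ∈ C b → t ∈ (cat m).edge e → Sum.inl e' ∈ C b →
      t ∈ (cat m).edge e' → e = e' := by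
    intro e e' he hte he' hte'
    exact (card_le_one.mp (by omega)) e (mem_tok.mpr ⟨he, hte⟩) e' (mem_tok.mpr ⟨he', hte'⟩)
  have hbt' : b.1 ≠ t.1 := fun h => hbt (Fin.ext h)
  have hat' : a.1 ≠ t.1 := fun h => hat (Fin.ext h)
  let Q : Fin (2 * m + 2) ⊕ (Fin (2 * m + 2) × Fin (2 * m + 2)) → Prop := fun x =>
    match x with
    | Sum.inl e => eside t.1 e.1 = side t.1 b.1
    | Sum.inr p => (p.1 = t → ∀ e, Sum.inl e ∈ C b → t ∈ (cat m).edge e →
        eside t.1 e.1 = side t.1 b.1) ∧ (p.1 ≠ t → side t.1 p.1.1 = side t.1 b.1)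
  have hpres : ∀ x ∈ C b, ∀ y ∈ C b, (linkGraph (cat m)).Adj x y → Q x → Q y := by
    rintro (e | p) hx (e' | p') hy hadj hq
    · obtain ⟨hne, v, hv, hv'⟩ := hadj
      by_cases hvt : v = t
      · subst hvt
        exact absurd (hone e e' hx hv hy hv') hne
      · have hvt' : v.1 ≠ t.1 := fun h => hvt (Fin.ext h)
        have h1 := side_eq ht (fun h => h0 e h hx) (mem_cat.mp hv) hvt'
        have h2 := side_eq ht (fun h => h0 e' h hy) (mem_cat.mp hv') hvt'
        change eside t.1 e'.1 = _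
        rw [← h2, h1]
        exact hq
    · have hpe : p'.1 ∈ (cat m).edge e := hadj
      refine ⟨?_, ?_⟩
      · intro hpt e' he' hte'
        rw [hpt] at hpe
        rw [← hone e e' hx hpe he' hte']
        exact hq
      · intro hpt
        have hvt' : p'.1.1 ≠ t.1 := fun h => hpt (Fin.ext h)
        rw [side_eq ht (fun h => h0 e h hx) (mem_cat.mp hpe) hvt']
        exact hq
    · have hpe : p.1 ∈ (cat m).edge e' := hadj
      by_cases hpt : p.1 = t
      · rw [hpt] at hpe
        exact hq.1 hpt e' hy hpe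
      · have hvt' : p.1.1 ≠ t.1 := fun h => hpt (Fin.ext h)
        change eside t.1 e'.1 = _
        rw [← side_eq ht (fun h => h0 e' h hy) (mem_cat.mp hpe) hvt']
        exact hq.2 hpt
    · exact absurd hadj (fun h => h)
  have hstart : Q (Sum.inr (b, b)) := ⟨fun h => absurd h hbt, fun _ => rfl⟩
  have hend := induce_induct _ _ hconn hpres hbb hab hstart
  exact hside (hend.2 hat)

lemma tok_pos {t w v : Fin (2 * m + 2)} (hconn : ((linkGraph (cat m)).induce (C w)).Connected)
    (h1 : Sum.inr (t, w) ∈ C w) (h2 : Sum.inr (v, w) ∈ C w) (hvt : v ≠ t) :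
    1 ≤ (tok C t w).card := by
  obtain ⟨d, hd⟩ := exists_potential _ _ hconn h2
  obtain ⟨y, hy, hadj, _⟩ := hd _ h1 (fun h => hvt (congrArg Prod.fst (Sum.inr.inj h)).symm)
  rcases y with e | p
  · exact card_pos.mpr ⟨e, mem_tok.mpr ⟨hy, hadj⟩⟩
  · exact absurd hadj (fun h => h)

lemma three_groups (hP : IsPattern (leaves m) W F)
    (hroot : ∀ w ∈ W, ∀ v ∈ F w, Sum.inr (v, w) ∈ C w)
    (hconn : ∀ w ∈ W, ((linkGraph (cat m)).induce (C w)).Connected)
    (hdis : ∀ w ∈ W, ∀ w' ∈ W, w ≠ w' → Disjoint (C w) (C w'))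
    {t : Fin (2 * m + 2)} (ht : t.1 % 2 = 1) (htm : t.1 < 2 * m + 1) :
    3 ≤ (W.filter (fun w => t ∈ F w)).card := by
  classical
  have hm : 1 ≤ m := by omega
  -- tokens are disjoint
  have htokdis : ∀ w ∈ W, ∀ w' ∈ W, w ≠ w' → Disjoint (tok C t w) (tok C t w') := by
    intro w hw w' hw' hne
    rw [disjoint_left]
    intro e he he'
    exact Set.disjoint_left.mp (hdis w hw w' hw' hne) (mem_tok.mp he).1 (mem_tok.mp he').1
  have htoksub : ∀ w, tok C t w ⊆ {t, ⟨min (t.1 + 1) (2 * m + 1), by omega⟩,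
      ⟨min (t.1 + 2) (2 * m + 1), by omega⟩} := by
    intro w e he
    have h1 := at_t ht htm (mem_cat.mp (mem_tok.mp he).2)
    have h2 := e.2
    simp only [mem_insert, mem_singleton]
    rcases h1 with h | h | h
    · left; exact Fin.ext h
    · right; left; apply Fin.ext; simp only; omega
    · right; right; apply Fin.ext; simp only; omega
  have hthree : ∀ s : Finset (Fin (2 * m + 2)), (∀ e ∈ s, ∃ w, e ∈ tok C t w) → s.card ≤ 3 := by
    intro s hs
    have : s ⊆ {t, ⟨min (t.1 + 1) (2 * m + 1), by omega⟩,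
      ⟨min (t.1 + 2) (2 * m + 1), by omega⟩} := by
      intro e he
      obtain ⟨w, hw⟩ := hs e he
      exact htoksub w hw
    exact (card_le_card this).trans card_le_three
  have hsum2 : ∀ b ∈ W, ∀ b' ∈ W, b ≠ b' → (tok C t b).card + (tok C t b').card ≤ 3 := by
    intro b hb b' hb' hne
    rw [← card_union_of_disjoint (htokdis b hb b' hb' hne)]
    apply hthree
    intro e he
    rcases mem_union.mp he with h | h
    · exact ⟨b, h⟩
    · exact ⟨b', h⟩
  have hsum3 : ∀ a ∈ W, ∀ b ∈ W, ∀ b' ∈ W, a ≠ b → a ≠ b' → b ≠ b' →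
      (tok C t a).card + (tok C t b).card + (tok C t b').card ≤ 3 := by
    intro a ha b hb b' hb' h1 h2 h3
    rw [← card_union_of_disjoint (htokdis a ha b hb h1), ← card_union_of_disjoint]
    · apply hthree
      intro e he
      rcases mem_union.mp he with h | h
      · rcases mem_union.mp h with h | h
        · exact ⟨a, h⟩
        · exact ⟨b, h⟩
      · exact ⟨b', h⟩
    · rw [disjoint_union_left]
      exact ⟨htokdis a ha b' hb' h2, htokdis b hb b' hb' h3⟩
  -- entering arcs
  have hent : ∀ i : ℕ, ∀ s s' : Fin (2 * m + 2), s ∈ leaves m → s' ∈ leaves m → s ≠ t →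
      side t.1 s.1 = i → side t.1 s'.1 ≠ i →
      ∃ b ∈ W, b ≠ t ∧ side t.1 b.1 = i ∧ ((∀ z : Fin (2 * m + 2), z.1 = 0 → Sum.inl z ∉ C b) →
        ((t ∈ F b ∧ 1 ≤ (tok C t b).card) ∨ 2 ≤ (tok C t b).card)) := by
    intro i s s' hs hs' hst hsi hsi'
    have hwalk := hP.strong s' (hP.terminals hs') s (hP.terminals hs)
    let Y : Finset (Fin (2 * m + 2)) := univ.filter (fun x => x ≠ t ∧ side t.1 x.1 = i)
    have hsY : s ∈ Y := by simp [Y, hst, hsi]
    have hsY' : s' ∉ Y := by simp [Y, hsi']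
    obtain ⟨a, b, ⟨hbW, hab⟩, haY, hbY, _⟩ := exists_cross (s := s') hwalk hsY hsY' ReflTransGen.refl
    simp only [Y, mem_filter, mem_univ, true_and, not_and] at haY hbY
    refine ⟨b, hbW, hbY.1, hbY.2, ?_⟩
    intro h0
    by_cases hat : a = t
    · left
      subst hat
      exact ⟨hab, tok_pos (hconn b hbW) (hroot b hbW _ hab) (hroot b hbW b (hP.head_mem b hbW)) hbY.1⟩
    · right
      exact cross_two ht (hconn b hbW) (hroot b hbW b (hP.head_mem b hbW)) (hroot b hbW a hab)
        hbY.1 hat (by rw [hbY.2]; exact haY hat) h0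
  -- the key step
  have hpair : ∀ b ∈ W, ∀ b' ∈ W, b ≠ t → b' ≠ t → b ≠ b' →
      ((t ∈ F b ∧ 1 ≤ (tok C t b).card) ∨ 2 ≤ (tok C t b).card) →
      ((t ∈ F b' ∧ 1 ≤ (tok C t b').card) ∨ 2 ≤ (tok C t b').card) →
      3 ≤ (W.filter (fun w => t ∈ F w)).card := by
    intro b hb b' hb' hbt hbt' hne h1 h2
    by_cases htW : t ∈ W
    · obtain ⟨v, hv, hvt⟩ : ∃ v ∈ F t, v ≠ t := by
        have hwalk := hP.strong b hb t htW
        obtain ⟨a, c, ⟨_, hac⟩, ha, hc, _⟩ := exists_cross (s := b) (Y := {t}) hwalk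
          (mem_singleton_self t) (by rw [mem_singleton]; exact hbt) ReflTransGen.refl
        rw [mem_singleton] at ha hc
        rw [hc] at hac
        exact ⟨a, hac, ha⟩
      have hct := tok_pos (hconn t htW) (hroot t htW t (hP.head_mem t htW)) (hroot t htW v hv) hvt
      have hs := hsum3 t htW b hb b' hb' hbt.symm hbt'.symm hne
      have h1' : t ∈ F b := by
        rcases h1 with h | h
        · exact h.1
        · rcases h2 with h2 | h2 <;> omega
      have h2' : t ∈ F b' := by
        rcases h2 with h | h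
        · exact h.1
        · rcases h1 with h1 | h1 <;> omega
      have hsub : ({t, b, b'} : Finset (Fin (2 * m + 2))) ⊆ W.filter (fun w => t ∈ F w) := by
        intro x hx
        simp only [mem_insert, mem_singleton] at hx
        rcases hx with rfl | rfl | rfl
        · exact mem_filter.mpr ⟨htW, hP.head_mem _ htW⟩
        · exact mem_filter.mpr ⟨hb, h1'⟩
        · exact mem_filter.mpr ⟨hb', h2'⟩
      have h3 : ({t, b, b'} : Finset (Fin (2 * m + 2))).card = 3 :=
        card_eq_three.mpr ⟨t, b, b', hbt.symm, hbt'.symm, hne, rfl⟩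
      rw [← h3]
      exact card_le_card hsub
    · exfalso
      have hs := hsum2 b hb b' hb' hne
      have h1' : 2 ≤ (tok C t b).card := h1.resolve_left (fun h => htW (hP.subset b hb h.1))
      have h2' : 2 ≤ (tok C t b').card := h2.resolve_left (fun h => htW (hP.subset b' hb' h.1))
      omega
  -- the three branches
  have hz : (0 : ℕ) < 2 * m + 2 := by omega
  have hl0 : (⟨0, hz⟩ : Fin (2 * m + 2)) ∈ leaves m := mem_leaves.mpr (Or.inl rfl)
  have ht1 : t.1 + 1 < 2 * m + 2 := by omega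
  have hl1 : (⟨t.1 + 1, ht1⟩ : Fin (2 * m + 2)) ∈ leaves m := mem_leaves.mpr (Or.inl (by simp only; omega))
  have hl2 : (⟨2 * m + 1, by omega⟩ : Fin (2 * m + 2)) ∈ leaves m := mem_leaves.mpr (Or.inr rfl)
  have hne0 : (⟨0, hz⟩ : Fin (2 * m + 2)) ≠ t := by
    intro h; have := congrArg Fin.val h; simp only at this; omega
  have hne1 : (⟨t.1 + 1, ht1⟩ : Fin (2 * m + 2)) ≠ t := by
    intro h; have := congrArg Fin.val h; simp only at this; omega
  have hne2 : (⟨2 * m + 1, by omega⟩ : Fin (2 * m + 2)) ≠ t := by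
    intro h; have := congrArg Fin.val h; simp only at this; omega
  have hs0 : side t.1 0 = 0 := by unfold side; split_ifs <;> omega
  have hs1 : side t.1 (t.1 + 1) = 1 := by unfold side; split_ifs <;> omega
  have hs2 : side t.1 (2 * m + 1) = 2 := by unfold side; split_ifs <;> omega
  obtain ⟨b0, hb0, hb0t, hb0s, hb0p⟩ := hent 0 _ _ hl0 hl1 hne0 hs0 (by simp only; omega)
  obtain ⟨b1, hb1, hb1t, hb1s, hb1p⟩ := hent 1 _ _ hl1 hl0 hne1 hs1 (by simp only; omega)
  obtain ⟨b2, hb2, hb2t, hb2s, hb2p⟩ := hent 2 _ _ hl2 hl0 hne2 hs2 (by simp only; omega)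
  have h01 : b0 ≠ b1 := by rintro rfl; omega
  have h02 : b0 ≠ b2 := by rintro rfl; omega
  have h12 : b1 ≠ b2 := by rintro rfl; omega
  have hex : ∀ b ∈ W, ∀ b' ∈ W, b ≠ b' → (¬ ∀ z : Fin (2 * m + 2), z.1 = 0 → Sum.inl z ∉ C b) →
      ∀ z : Fin (2 * m + 2), z.1 = 0 → Sum.inl z ∉ C b' := by
    intro b hb b' hb' hne h z hz0 hz'
    push Not at h
    obtain ⟨z', hz0', hz''⟩ := h
    have : z = z' := Fin.ext (by omega)
    subst this
    exact Set.disjoint_left.mp (hdis b hb b' hb' hne) hz'' hz'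
  by_cases hg0 : ∀ z : Fin (2 * m + 2), z.1 = 0 → Sum.inl z ∉ C b0
  · by_cases hg1 : ∀ z : Fin (2 * m + 2), z.1 = 0 → Sum.inl z ∉ C b1
    · exact hpair b0 hb0 b1 hb1 hb0t hb1t h01 (hb0p hg0) (hb1p hg1)
    · exact hpair b0 hb0 b2 hb2 hb0t hb2t h02 (hb0p hg0) (hb2p (hex b1 hb1 b2 hb2 h12 hg1))
  · exact hpair b1 hb1 b2 hb2 hb1t hb2t h12 (hb1p (hex b0 hb0 b1 hb1 h01 hg0))
      (hb2p (hex b0 hb0 b2 hb2 h02 hg0))

end lower

theorem cat_lower (m : ℕ) (W : Finset (Fin (2 * m + 2)))
    (F : Fin (2 * m + 2) → Finset (Fin (2 * m + 2)))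
    (hP : IsPattern (leaves m) W F) (hR : Realised (cat m) W F) :
    2 * (m + 2) ≤ W.card + 2 ∧ 5 * (m + 2) ≤ ∑ w ∈ W, (F w).card + 6 := by
  classical
  obtain ⟨C, hC, hdis⟩ := hR
  have hroot : ∀ w ∈ W, ∀ v ∈ F w, Sum.inr (v, w) ∈ C w := fun w hw v hv => (hC w hw).1 ⟨v, hv, rfl⟩
  have hconn := fun w hw => (hC w hw).2
  have h3 : ∀ t, t ∉ leaves m → 3 ≤ (W.filter (fun w => t ∈ F w)).card := by
    intro t ht
    rw [mem_leaves] at ht
    have := t.2
    exact three_groups hP hroot hconn hdis (by omega) (by omega)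
  have h2 : ∀ t, t ∈ leaves m → 2 ≤ (W.filter (fun w => t ∈ F w)).card := by
    intro t ht
    have htW := hP.terminals ht
    obtain ⟨s, hs, hst⟩ : ∃ s ∈ leaves m, s ≠ t := by
      have h1 : 1 < (leaves m).card := by rw [card_leaves]; omega
      exact exists_mem_ne h1 t
    have hwalk := hP.strong t htW s (hP.terminals hs)
    obtain ⟨a, b, ⟨hbW, hab⟩, ha, hb, _⟩ := exists_cross (s := t) (Y := univ.erase t) hwalk
      (mem_erase.mpr ⟨hst, mem_univ _⟩) (by simp) ReflTransGen.refl
    have hat : a = t := by simpa using ha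
    have hbt : b ≠ t := (mem_erase.mp hb).1
    rw [hat] at hab
    exact one_lt_card.mpr ⟨b, mem_filter.mpr ⟨hbW, hab⟩, t, mem_filter.mpr ⟨htW, hP.head_mem t htW⟩, hbt⟩
  have hWu : W = univ := by
    rw [eq_univ_iff_forall]
    intro t
    by_cases ht : t ∈ leaves m
    · exact hP.terminals ht
    · have := h3 t ht
      obtain ⟨w, hw⟩ := card_pos.mp (show 0 < (W.filter (fun w => t ∈ F w)).card by omega)
      rw [mem_filter] at hw
      exact hP.subset w hw.1 hw.2
  constructor
  · rw [hWu, card_univ, Fintype.card_fin]; omega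
  · have hdc : ∑ w ∈ W, (F w).card = ∑ t, (W.filter (fun w => t ∈ F w)).card := by
      have h1 : ∀ w ∈ W, (F w).card = ∑ t, (if t ∈ F w then 1 else 0) := by
        intro w _
        rw [← card_filter]
        congr 1
        ext t
        simp
      rw [sum_congr rfl h1, sum_comm]
      apply sum_congr rfl
      intro t _
      rw [card_filter]
    have hlow : ∑ t : Fin (2 * m + 2), (if t ∈ leaves m then 2 else 3) ≤
        ∑ t, (W.filter (fun w => t ∈ F w)).card := by
      apply sum_le_sum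
      intro t _
      split_ifs with h
      · exact h2 t h
      · exact h3 t h
    have hcount : ∑ t : Fin (2 * m + 2), (if t ∈ leaves m then 2 else 3) = 5 * m + 4 := by
      rw [sum_ite, sum_const, sum_const, smul_eq_mul, smul_eq_mul]
      have e1 : (univ.filter (fun t => t ∈ leaves m)).card = m + 2 := by
        rw [filter_mem_eq_inter, univ_inter, card_leaves]
      have e2 : (univ.filter (fun t => t ∉ leaves m)).card + (univ.filter (fun t => t ∈ leaves m)).card
          = 2 * m + 2 := by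
        rw [add_comm, card_filter_add_card_filter_not, card_univ, Fintype.card_fin]
      omega
    rw [hdc]
    omega

end Pool.SSO
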