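import Mathlib

/-!
# Hypergraphic circuits (elementary bipartite graphs) and tight sets

`Circ W I f`: the hyperedges `f i`, `i ∈ I`, on the node set `W` satisfy `|I| = |W|` and every nonempty
proper subset `Y` of `W` contains fewer than `|Y|` of them.
-/

namespace Pool.SSO

open Finset

variable {V E : Type*} [DecidableEq V] [DecidableEq E]

/-- number of hyperedges inside `Y` -/
def cnt (I : Finset E) (f : E → Finset V) (Y : Finset V) : ℕ := (I.filter (fun i => f i ⊆ Y)).card

/-- number of hyperedges containing `w` -/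
def deg (I : Finset E) (f : E → Finset V) (w : V) : ℕ := (I.filter (fun i => w ∈ f i)).card

structure Circ (W : Finset V) (I : Finset E) (f : E → Finset V) : Prop where
  card : I.card = W.card
  sub : ∀ i ∈ I, f i ⊆ W
  two : ∀ i ∈ I, 2 ≤ (f i).card
  lt : ∀ Y, Y ⊂ W → Y.Nonempty → cnt I f Y < Y.card

def Tight (W : Finset V) (I : Finset E) (f : E → Finset V) (Y : Finset V) : Prop :=
  Y.Nonempty ∧ Y ⊂ W ∧ cnt I f Y + 1 = Y.card

section
variable {W : Finset V} {I : Finset E} {f : E → Finset V}

lemma cnt_super (Y Z : Finset V) : cnt I f Y + cnt I f Z ≤ cnt I f (Y ∪ Z) + cnt I f (Y ∩ Z) := by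
  unfold cnt
  rw [← card_union_add_card_inter]
  apply Nat.add_le_add
  · apply card_le_card
    intro i hi
    simp only [mem_union, mem_filter] at hi ⊢
    rcases hi with ⟨h1, h2⟩ | ⟨h1, h2⟩
    · exact ⟨h1, h2.trans subset_union_left⟩
    · exact ⟨h1, h2.trans subset_union_right⟩
  · apply card_le_card
    intro i hi
    simp only [mem_inter, mem_filter] at hi ⊢
    exact ⟨hi.1.1, subset_inter hi.1.2 hi.2.2⟩

lemma tight_union (hc : Circ W I f) {Y Z : Finset V} (hY : Tight W I f Y) (hZ : Tight W I f Z)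
    (hi : (Y ∩ Z).Nonempty) (hu : Y ∪ Z ≠ W) : Tight W I f (Y ∪ Z) := by
  have hs : Y ∪ Z ⊂ W := by
    refine Finset.ssubset_iff_subset_ne.mpr ⟨union_subset hY.2.1.1 hZ.2.1.1, hu⟩
  have his : Y ∩ Z ⊂ W := lt_of_le_of_lt inter_subset_left hY.2.1
  have h1 := hc.lt _ hs (hY.1.mono subset_union_left)
  have h2 := hc.lt _ his hi
  have h3 := cnt_super (I := I) (f := f) Y Z
  have h4 := card_union_add_card_inter Y Z
  have h5 := hY.2.2
  have h6 := hZ.2.2
  refine ⟨hY.1.mono subset_union_left, hs, ?_⟩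
  omega

/-- splitting off one node -/
lemma cnt_insert {A : Finset V} {w : V} (hw : w ∉ A) :
    cnt I f (insert w A) = cnt I f A + (I.filter (fun i => w ∈ f i ∧ f i ⊆ insert w A)).card := by
  unfold cnt
  rw [← card_union_of_disjoint]
  · congr 1
    ext i
    simp only [mem_filter, mem_union]
    constructor
    · rintro ⟨h1, h2⟩
      by_cases h : w ∈ f i
      · right; exact ⟨h1, h, h2⟩
      · left
        refine ⟨h1, fun x hx => ?_⟩
        rcases mem_insert.mp (h2 hx) with h3 | h3
        · exact absurd (h3 ▸ hx) h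
        · exact h3
    · rintro (⟨h1, h2⟩ | ⟨h1, _, h2⟩)
      · exact ⟨h1, h2.trans (subset_insert _ _)⟩
      · exact ⟨h1, h2⟩
  · rw [disjoint_left]
    intro i hi hi'
    simp only [mem_filter] at hi hi'
    exact hw (hi.2 hi'.2.1)

/-- degrees are at least two -/
lemma two_le_deg (hc : Circ W I f) (h2 : 2 ≤ W.card) {w : V} (hw : w ∈ W) : 2 ≤ deg I f w := by
  have hne : (W.erase w).Nonempty := by
    rw [← card_pos, card_erase_of_mem hw]; omega
  have h1 := hc.lt _ (erase_ssubset hw) hne
  rw [card_erase_of_mem hw] at h1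
  have h3 : cnt I f (W.erase w) + deg I f w = I.card := by
    unfold cnt deg
    rw [← card_union_of_disjoint]
    · congr 1
      ext i
      simp only [mem_union, mem_filter]
      constructor
      · rintro (h | h) <;> exact h.1
      · intro h
        by_cases hwi : w ∈ f i
        · right; exact ⟨h, hwi⟩
        · left
          refine ⟨h, fun x hx => mem_erase.mpr ⟨fun e => hwi (e ▸ hx), hc.sub i h hx⟩⟩
    · rw [disjoint_left]
      intro i hi hi'
      simp only [mem_filter] at hi hi'
      have := hi.2 hi'.2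
      simp at this
  have := hc.card
  omega

/-- the maximal tight set avoiding `w` through a given tight set -/
lemma exists_max (hc : Circ W I f) {w : V} (hw : w ∈ W) {X : Finset V}
    (hex : ∃ Y, Tight W I f Y ∧ w ∉ Y ∧ X ⊆ Y) :
    ∃ A, Tight W I f A ∧ w ∉ A ∧ X ⊆ A ∧
      ∀ Z, Tight W I f Z → w ∉ Z → (A ∩ Z).Nonempty → Z ⊆ A := by
  classical
  let T : Finset (Finset V) := W.powerset.filter (fun Y => Tight W I f Y ∧ w ∉ Y ∧ X ⊆ Y)
  have hT : T.Nonempty := by
    obtain ⟨Y, hY⟩ := hex
    exact ⟨Y, mem_filter.mpr ⟨mem_powerset.mpr hY.1.2.1.1, hY⟩⟩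
  obtain ⟨A, hA, hmax⟩ := exists_max_image T card hT
  have hA' := (mem_filter.mp hA).2
  refine ⟨A, hA'.1, hA'.2.1, hA'.2.2, ?_⟩
  intro Z hZ hwZ hne
  have hu : Tight W I f (A ∪ Z) := by
    apply tight_union hc hA'.1 hZ hne
    intro h
    rw [← h] at hw
    rcases mem_union.mp hw with h | h
    · exact hA'.2.1 h
    · exact hwZ h
  have hmem : A ∪ Z ∈ T := by
    refine mem_filter.mpr ⟨mem_powerset.mpr hu.2.1.1, hu, ?_, hA'.2.2.trans subset_union_left⟩
    intro h
    rcases mem_union.mp h with h | h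
    · exact hA'.2.1 h
    · exact hwZ h
  have hle := hmax _ hmem
  have heq : A = A ∪ Z := eq_of_subset_of_card_le subset_union_left hle
  rw [heq]
  exact subset_union_right

end

end Pool.SSO
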