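import Mathlib

/-!
# Hypergraphs, strong orientations, patterns and disjoint connected subgraphs: definitions
-/

namespace Pool.SSO

/-- A hypergraph with node type `V` and hyperedges indexed by `E` (so repetitions are allowed);
each hyperedge is a set of at least two nodes. -/
structure Hypergraph (V E : Type) where
  /-- the node set of a hyperedge -/
  edge : E → Finset V
  /-- every hyperedge has at least two nodes -/
  two_le_card : ∀ e, 2 ≤ (edge e).card

/-- An orientation of a hypergraph chooses one node of each hyperedge as its head. -/
structure Orientation {V E : Type} (H : Hypergraph V E) where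
  /-- the head of a hyperedge -/
  head : E → V
  /-- the head is a node of the hyperedge -/
  head_mem : ∀ e, head e ∈ H.edge e

/-- One step of an oriented hypergraph: from a tail node `u` of a hyperedge to its head `w`. -/
def Orientation.Step {V E : Type} {H : Hypergraph V E} (o : Orientation H) (u w : V) : Prop :=
  ∃ e, u ∈ H.edge e ∧ u ≠ o.head e ∧ w = o.head e

/-- An orientation is `S`-strong if any two nodes of `S` are mutually reachable. -/
def Orientation.Strong {V E : Type} {H : Hypergraph V E} (o : Orientation H)
    (S : Finset V) : Prop :=
  ∀ u ∈ S, ∀ v ∈ S, Relation.ReflTransGen o.Step u v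

/-- A pattern with terminal set `S`: a node set `W` containing `S` and one subset `f w` of `W` for
every node `w` of `W`, with `w ∈ f w`, such that the digraph on `W` with an arc from each member
of `f w` to `w` is strongly connected.  (So it is a hypergraph on `W` with exactly `|W|`
hyperedges and a strong orientation in which every node is the head of one hyperedge.)
The definition does not involve any other hypergraph. -/
structure IsPattern {V : Type} (S W : Finset V) (f : V → Finset V) : Prop where
  /-- the terminals are nodes of the pattern -/
  terminals : S ⊆ W
  /-- the head of the hyperedge `f w` is `w` -/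
  head_mem : ∀ w ∈ W, w ∈ f w
  /-- the hyperedges of the pattern are subsets of `W` -/
  subset : ∀ w ∈ W, f w ⊆ W
  /-- the pattern is strongly connected -/
  strong : ∀ u ∈ W, ∀ v ∈ W, Relation.ReflTransGen (fun a b => b ∈ W ∧ a ∈ f b) u v

/-- The link graph of a hypergraph: its vertices are the hyperedges and the pairs of nodes;
two distinct hyperedges are adjacent if they have a common node, and the pair `(v, w)` is adjacent
to the hyperedges that contain `v`. -/
def linkGraph {V E : Type} (H : Hypergraph V E) : SimpleGraph (E ⊕ (V × V)) where
  Adj x y := match x, y with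
    | Sum.inl e, Sum.inl e' => e ≠ e' ∧ ∃ v, v ∈ H.edge e ∧ v ∈ H.edge e'
    | Sum.inl e, Sum.inr p => p.1 ∈ H.edge e
    | Sum.inr p, Sum.inl e => p.1 ∈ H.edge e
    | Sum.inr _, Sum.inr _ => False
  symm := ⟨by
    rintro (e | p) (e' | p') h
    · exact ⟨h.1.symm, h.2.imp fun v hv => ⟨hv.2, hv.1⟩⟩
    · exact h
    · exact h
    · exact h⟩
  loopless := ⟨by
    rintro (e | p) h
    · exact h.1 rfl
    · exact h⟩

/-- The (rooted) disjoint connected subgraphs problem: given a graph `G` and root sets `R w`,
`w ∈ W`, there are pairwise disjoint vertex sets `C w`, `w ∈ W`, such that `C w` contains `R w`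
and induces a connected subgraph of `G`. -/
def DisjointConnected {α V : Type} (G : SimpleGraph α) (W : Finset V) (R : V → Set α) : Prop :=
  ∃ C : V → Set α, (∀ w ∈ W, R w ⊆ C w ∧ (G.induce (C w)).Connected) ∧
    ∀ w ∈ W, ∀ w' ∈ W, w ≠ w' → Disjoint (C w) (C w')

/-- The pattern `(W, f)` is realised in `H`: there are pairwise disjoint connected vertex sets
`C w`, `w ∈ W`, of the link graph such that `C w` contains the pairs `(v, w)` with `v ∈ f w`. -/
def Realised {V E : Type} (H : Hypergraph V E) (W : Finset V) (f : V → Finset V) : Prop :=
  DisjointConnected (linkGraph H) W (fun w => {x | ∃ v ∈ f w, x = Sum.inr (v, w)})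

end Pool.SSO
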