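import Pool.Agent.SSO.Defs

/-!
# From a realised pattern to a strong orientation
-/

namespace Pool.SSO

open Finset Relation

/-- a potential decreasing towards a root in a connected induced subgraph -/
lemma exists_potential {α : Type*} (G : SimpleGraph α) (C : Set α) (hC : (G.induce C).Connected)
    {r : α} (hr : r ∈ C) : ∃ d : α → ℕ, ∀ x ∈ C, x ≠ r → ∃ y ∈ C, G.Adj x y ∧ d y < d x := by
  classical
  refine ⟨fun x => if h : x ∈ C then (G.induce C).dist ⟨x, h⟩ ⟨r, hr⟩ else 0, ?_⟩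
  intro x hx hxr
  obtain ⟨p, hp⟩ := hC.exists_walk_length_eq_dist ⟨x, hx⟩ ⟨r, hr⟩
  cases p with
  | nil => exact absurd rfl hxr
  | @cons _ y _ hadj q =>
    refine ⟨y.1, y.2, hadj, ?_⟩
    have h1 : (G.induce C).dist ⟨y.1, y.2⟩ ⟨r, hr⟩ ≤ q.length := SimpleGraph.dist_le q
    have h2 : q.length + 1 = (G.induce C).dist ⟨x, hx⟩ ⟨r, hr⟩ := hp
    simp only [hx, y.2, dif_pos]
    omega

theorem exists_strong {V E : Type} (H : Hypergraph V E) {S W : Finset V} {F : V → Finset V}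
    (hP : IsPattern S W F) (hR : Realised H W F) : ∃ o : Orientation H, o.Strong S := by
  classical
  obtain ⟨C, hC, hdis⟩ := hR
  have hroot : ∀ w ∈ W, ∀ v ∈ F w, (Sum.inr (v, w) : E ⊕ V × V) ∈ C w := by
    intro w hw v hv
    exact (hC w hw).1 ⟨v, hv, rfl⟩
  have hpot : ∀ w : V, ∃ d : E ⊕ V × V → ℕ, w ∈ W → ∀ x ∈ C w, x ≠ Sum.inr (w, w) →
      ∃ y ∈ C w, (linkGraph H).Adj x y ∧ d y < d x := by
    intro w
    by_cases hw : w ∈ W
    · obtain ⟨d, hd⟩ := exists_potential (linkGraph H) (C w) (hC w hw).2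
        (hroot w hw w (hP.head_mem w hw))
      exact ⟨d, fun _ => hd⟩
    · exact ⟨fun _ => 0, fun h => absurd h hw⟩
  choose d hd using hpot
  have hgood : ∀ w ∈ W, ∀ e, (Sum.inl e : E ⊕ V × V) ∈ C w → ∃ h ∈ H.edge e, h = w ∨
      ∃ e', (Sum.inl e' : E ⊕ V × V) ∈ C w ∧ d w (Sum.inl e') < d w (Sum.inl e) ∧ h ∈ H.edge e' := by
    intro w hw e he
    obtain ⟨y, hy, hadj, hlt⟩ := hd w hw _ he Sum.inl_ne_inr
    rcases y with e' | p
    · obtain ⟨_, v, hv, hv'⟩ := hadj
      exact ⟨v, hv, Or.inr ⟨e', hy, hlt, hv'⟩⟩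
    · have hpe : p.1 ∈ H.edge e := hadj
      by_cases hp : (Sum.inr p : E ⊕ V × V) = Sum.inr (w, w)
      · have : p.1 = w := congrArg Prod.fst (Sum.inr.inj hp)
        exact ⟨p.1, hpe, Or.inl this⟩
      · obtain ⟨z, hz, hadj', hlt'⟩ := hd w hw _ hy hp
        rcases z with e' | q
        · exact ⟨p.1, hpe, Or.inr ⟨e', hz, hlt'.trans hlt, hadj'⟩⟩
        · exact absurd hadj' (fun h => h)
  have hhead : ∀ e : E, ∃ h ∈ H.edge e, ∀ w ∈ W, (Sum.inl e : E ⊕ V × V) ∈ C w → (h = w ∨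
      ∃ e', (Sum.inl e' : E ⊕ V × V) ∈ C w ∧ d w (Sum.inl e') < d w (Sum.inl e) ∧
        h ∈ H.edge e') := by
    intro e
    by_cases hex : ∃ w ∈ W, (Sum.inl e : E ⊕ V × V) ∈ C w
    · obtain ⟨w, hw, he⟩ := hex
      obtain ⟨h, hh, hg⟩ := hgood w hw e he
      refine ⟨h, hh, ?_⟩
      intro w' hw' he'
      by_cases hww : w = w'
      · subst hww; exact hg
      · exact absurd he' (Set.disjoint_left.mp (hdis w hw w' hw' hww) he)
    · have : 0 < (H.edge e).card := lt_of_lt_of_le (by norm_num) (H.two_le_card e)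
      obtain ⟨h, hh⟩ := card_pos.mp this
      exact ⟨h, hh, fun w hw he => absurd ⟨w, hw, he⟩ hex⟩
  choose head hmem hhd using hhead
  let o : Orientation H := ⟨head, hmem⟩
  have hreach : ∀ w ∈ W, ∀ n : ℕ, ∀ e, (Sum.inl e : E ⊕ V × V) ∈ C w → d w (Sum.inl e) = n →
      ∀ u ∈ H.edge e, ReflTransGen o.Step u w := by
    intro w hw n
    induction n using Nat.strong_induction_on with
    | _ n ih =>
      intro e he hn u hu
      have h1 : ReflTransGen o.Step (head e) w := by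
        rcases hhd e w hw he with h | ⟨e', he', hlt, hh⟩
        · rw [h]
        · rw [hn] at hlt
          exact ih _ hlt e' he' rfl _ hh
      by_cases hue : u = head e
      · rw [hue]; exact h1
      · exact ReflTransGen.head ⟨e, hu, hue, rfl⟩ h1
  have harc : ∀ b ∈ W, ∀ a ∈ F b, ReflTransGen o.Step a b := by
    intro b hb a ha
    by_cases hab : a = b
    · rw [hab]
    · have hne : (Sum.inr (a, b) : E ⊕ V × V) ≠ Sum.inr (b, b) :=
        fun h => hab (congrArg Prod.fst (Sum.inr.inj h))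
      obtain ⟨y, hy, hadj, _⟩ := hd b hb _ (hroot b hb a ha) hne
      rcases y with e | p
      · exact hreach b hb _ e hy rfl a hadj
      · exact absurd hadj (fun h => h)
  refine ⟨o, ?_⟩
  intro u hu v hv
  have := hP.strong u (hP.terminals hu) v (hP.terminals hv)
  clear hu hv
  induction this with
  | refl => exact ReflTransGen.refl
  | tail _ hbc ih => exact ih.trans (harc _ hbc.1 _ hbc.2)

end Pool.SSO
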