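import Pool.Agent.SSO.ToPattern
import Pool.Agent.SSO.FromPattern

/-!
# The polynomially many candidate patterns
-/

namespace Pool.SSO

open Finset Relation

variable {V : Type} [Fintype V] [DecidableEq V]

/-- candidate right-hand sides for a node set `W` -/
def cand (W : Finset V) : Finset (V → Finset V) :=
  Fintype.piFinset (fun v => if v ∈ W then W.powerset else {∅})

lemma mem_cand {W : Finset V} {f : V → Finset V} :
    f ∈ cand W ↔ (∀ w ∈ W, f w ⊆ W) ∧ ∀ v, v ∉ W → f v = ∅ := by
  unfold cand
  rw [Fintype.mem_piFinset]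
  constructor
  · intro h
    refine ⟨fun w hw => ?_, fun v hv => ?_⟩
    · have := h w
      rw [if_pos hw, mem_powerset] at this
      exact this
    · have := h v
      rw [if_neg hv, mem_singleton] at this
      exact this
  · intro h v
    split_ifs with hv
    · exact mem_powerset.mpr (h.1 v hv)
    · exact mem_singleton.mpr (h.2 v hv)

lemma card_cand (W : Finset V) : (cand W).card = 2 ^ (W.card * W.card) := by
  unfold cand
  rw [Fintype.card_piFinset]
  have h : ∀ v : V, (if v ∈ W then W.powerset else {∅} : Finset (Finset V)).card =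
      if v ∈ W then 2 ^ W.card else 1 := by
    intro v
    split_ifs
    · exact card_powerset W
    · exact card_singleton _
  rw [prod_congr rfl (fun v _ => h v), prod_ite, prod_const, prod_const_one, mul_one,
    filter_mem_eq_inter, univ_inter, ← pow_mul]

/-- all candidate pairs `(W, f)` with `W = S ∪ T`, `|T| ≤ k - 2` -/
def allCand (S : Finset V) (k : ℕ) : Finset (Finset V × (V → Finset V)) :=
  (univ : Finset (Fin (k - 2) → V)).biUnion (fun g =>
    (cand (S ∪ univ.image g)).image (fun f => (S ∪ univ.image g, f)))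

lemma card_allCand (S : Finset V) (k : ℕ) (hS : S.card = k) (hk : 2 ≤ k) :
    (allCand S k).card ≤ 2 ^ ((2 * k - 2) * (2 * k - 2)) * Fintype.card V ^ (k - 2) := by
  unfold allCand
  refine (card_biUnion_le).trans ?_
  have h1 : ∀ g ∈ (univ : Finset (Fin (k - 2) → V)),
      ((cand (S ∪ univ.image g)).image (fun f => (S ∪ univ.image g, f))).card ≤
        2 ^ ((2 * k - 2) * (2 * k - 2)) := by
    intro g _
    refine card_image_le.trans ?_
    rw [card_cand]
    have h2 : (S ∪ univ.image g).card ≤ 2 * k - 2 := by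
      have h3 := card_union_le S (univ.image g)
      have h4 : ((univ : Finset (Fin (k - 2))).image g).card ≤ k - 2 := by
        refine card_image_le.trans ?_
        rw [card_univ, Fintype.card_fin]
      omega
    exact Nat.pow_le_pow_right (by norm_num) (Nat.mul_le_mul h2 h2)
  refine (sum_le_sum h1).trans ?_
  rw [sum_const, smul_eq_mul, card_univ, Fintype.card_fun, Fintype.card_fin, mul_comm]

/-- every node set containing `S` with at most `2k - 2` nodes occurs -/
lemma mem_allCand {S W : Finset V} {k : ℕ} (hS : S.card = k) (hk : 2 ≤ k) (hSW : S ⊆ W)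
    (hW : W.card ≤ 2 * k - 2) {f : V → Finset V} (hf : f ∈ cand W) : (W, f) ∈ allCand S k := by
  classical
  have hex : ∃ g : Fin (k - 2) → V, S ∪ univ.image g = W := by
    have hc : (W \ S).card ≤ k - 2 := by
      have := card_sdiff_add_card_eq_card hSW
      omega
    obtain ⟨s, hs⟩ := card_pos.mp (show 0 < S.card by omega)
    let e := (W \ S).equivFin
    refine ⟨fun i => if h : i.1 < (W \ S).card then (e.symm ⟨i.1, h⟩).1 else s, ?_⟩
    ext x
    rw [mem_union, mem_image]
    constructor
    · rintro (h | ⟨i, _, hi⟩)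
      · exact hSW h
      · split_ifs at hi with h
        · rw [← hi]
          exact (mem_sdiff.mp (e.symm ⟨i.1, h⟩).2).1
        · rw [← hi]; exact hSW hs
    · intro hx
      by_cases hxS : x ∈ S
      · exact Or.inl hxS
      · right
        have hxm : x ∈ W \ S := mem_sdiff.mpr ⟨hx, hxS⟩
        refine ⟨⟨(e ⟨x, hxm⟩).1, lt_of_lt_of_le (e ⟨x, hxm⟩).2 hc⟩, mem_univ _, ?_⟩
        rw [dif_pos (e ⟨x, hxm⟩).2]
        simp
  obtain ⟨g, hg⟩ := hex
  unfold allCand
  rw [mem_biUnion]
  refine ⟨g, mem_univ _, ?_⟩
  rw [hg]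
  exact mem_image_of_mem _ hf

/-- patterns within the two bounds -/
structure SmallPattern {V : Type} (S W : Finset V) (f : V → Finset V) : Prop where
  /-- it is a pattern -/
  pattern : IsPattern S W f
  /-- normalisation: `f` is empty outside `W` -/
  off : ∀ v, v ∉ W → f v = ∅
  /-- at most `2|S| - 2` nodes (and as many hyperedges) -/
  card_le : W.card ≤ 2 * S.card - 2
  /-- total size of the hyperedges at most `5|S| - 6` -/
  sum_le : ∑ w ∈ W, (f w).card ≤ 5 * S.card - 6

theorem ncard_small (k : ℕ) (hk : 2 ≤ k) (S : Finset V) (hS : S.card = k) :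
    {p : Finset V × (V → Finset V) | SmallPattern S p.1 p.2}.ncard ≤
      2 ^ ((2 * k - 2) * (2 * k - 2)) * Fintype.card V ^ (k - 2) := by
  classical
  refine le_trans ?_ (card_allCand S k hS hk)
  rw [← Set.ncard_coe_finset]
  apply Set.ncard_le_ncard _ (Finset.finite_toSet _)
  rintro ⟨W, f⟩ h
  have h' : SmallPattern S W f := h
  rw [mem_coe]
  exact mem_allCand hS hk h'.pattern.terminals (by rw [← hS]; exact h'.card_le)
    (mem_cand.mpr ⟨h'.pattern.subset, h'.off⟩)

theorem strong_iff (S : Finset V) (hS : 2 ≤ S.card) {E : Type} [Fintype E] (H : Hypergraph V E) :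
    (∃ o : Orientation H, o.Strong S) ↔
      ∃ (W : Finset V) (f : V → Finset V), SmallPattern S W f ∧ Realised H W f := by
  classical
  constructor
  · rintro ⟨o, ho⟩
    obtain ⟨W, F, hP, h1, h2, hR⟩ := exists_pattern H hS o ho
    -- normalise `F` off `W`
    let F' : V → Finset V := fun v => if v ∈ W then F v else ∅
    have hF' : ∀ w ∈ W, F' w = F w := fun w hw => if_pos hw
    have hP' : IsPattern S W F' := by
      refine ⟨hP.terminals, fun w hw => by rw [hF' w hw]; exact hP.head_mem w hw,
        fun w hw => by rw [hF' w hw]; exact hP.subset w hw, ?_⟩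
      intro u hu v hv
      refine rtg_mono ?_ (hP.strong u hu v hv)
      rintro a b ⟨hb, hab⟩
      exact ⟨hb, by rw [hF' b hb]; exact hab⟩
    refine ⟨W, F', ⟨hP', fun v hv => if_neg hv, by omega, ?_⟩, ?_⟩
    · rw [sum_congr rfl (fun w hw => by rw [hF' w hw])]
      omega
    · obtain ⟨C, hC, hdis⟩ := hR
      refine ⟨C, fun w hw => ⟨?_, (hC w hw).2⟩, hdis⟩
      rintro x ⟨v, hv, rfl⟩
      rw [hF' w hw] at hv
      exact (hC w hw).1 ⟨v, hv, rfl⟩
  · rintro ⟨W, f, hf, hR⟩
    exact exists_strong H hf.pattern hR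

end Pool.SSO
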