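import Pool.Agent.SSO.Model

/-!
# From a good model to a realised pattern
-/

namespace Pool.SSO

open Finset Relation

variable {V E : Type} [DecidableEq V] [DecidableEq E]

omit [DecidableEq E] in
/-- Hall: a circuit has a bijective choice of heads, given as an index function `W → I` -/
lemma exists_index {W : Finset V} {I : Finset E} {f : E → Finset V} (hc : Circ W I f)
    (hne : W.Nonempty) :
    ∃ idx : V → E, (∀ w ∈ W, idx w ∈ I ∧ w ∈ f (idx w)) ∧
      ∀ w ∈ W, ∀ w' ∈ W, idx w = idx w' → w = w' := by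
  classical
  have hall : ∀ s : Finset {i // i ∈ I}, s.card ≤ (s.biUnion (fun i => f i.1)).card := by
    intro s
    rcases s.eq_empty_or_nonempty with rfl | hs
    · simp
    · set Y := s.biUnion (fun i => f i.1) with hY
      have hYW : Y ⊆ W := by
        intro x hx
        obtain ⟨i, _, hxi⟩ := mem_biUnion.mp hx
        exact hc.sub i.1 i.2 hxi
      have hmap : (s.map ⟨Subtype.val, Subtype.val_injective⟩) ⊆ I.filter (fun i => f i ⊆ Y) := by
        intro i hi
        obtain ⟨j, hj, rfl⟩ := mem_map.mp hi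
        refine mem_filter.mpr ⟨j.2, ?_⟩
        exact subset_biUnion_of_mem (fun i : {i // i ∈ I} => f i.1) hj
      have h1 := card_le_card hmap
      rw [card_map] at h1
      by_cases hEq : Y = W
      · rw [hEq, ← hc.card]
        exact h1.trans (card_le_card (filter_subset _ _))
      · obtain ⟨i, hi⟩ := hs
        have hne : Y.Nonempty := by
          have h2 := hc.two i.1 i.2
          obtain ⟨x, hx⟩ := card_pos.mp (show 0 < (f i.1).card by omega)
          exact ⟨x, mem_biUnion.mpr ⟨i, hi, hx⟩⟩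
        have := hc.lt Y (Finset.ssubset_iff_subset_ne.mpr ⟨hYW, hEq⟩) hne
        unfold cnt at this
        omega
  obtain ⟨g, hg, hgf⟩ := (Finset.all_card_le_biUnion_card_iff_exists_injective _).mp hall
  have himg : (univ : Finset {i // i ∈ I}).image g = W := by
    apply eq_of_subset_of_card_le
    · intro x hx
      obtain ⟨i, _, rfl⟩ := mem_image.mp hx
      exact hc.sub i.1 i.2 (hgf i)
    · rw [card_image_of_injective _ hg, card_univ, Fintype.card_coe, hc.card]
  have hex : ∀ w : V, ∃ i : E, w ∈ W → ∃ hi : i ∈ I, g ⟨i, hi⟩ = w := by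
    intro w
    by_cases hw : w ∈ W
    · rw [← himg] at hw
      obtain ⟨i, _, hi⟩ := mem_image.mp hw
      exact ⟨i.1, fun _ => ⟨i.2, hi⟩⟩
    · obtain ⟨w0, hw0⟩ := hne
      rw [← himg] at hw0
      obtain ⟨i, _, _⟩ := mem_image.mp hw0
      exact ⟨i.1, fun h => absurd h hw⟩
  choose idx hidx using hex
  refine ⟨idx, ?_, ?_⟩
  · intro w hw
    obtain ⟨h1, h2⟩ := hidx w hw
    refine ⟨h1, ?_⟩
    have := hgf ⟨idx w, h1⟩
    rwa [h2] at this
  · intro w hw w' hw' h
    obtain ⟨h1, h2⟩ := hidx w hw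
    obtain ⟨h1', h2'⟩ := hidx w' hw'
    rw [← h2, ← h2']
    congr 1
    exact Subtype.ext h

omit [DecidableEq E] in
/-- the pattern of a circuit -/
lemma isPattern_of_circ {S W : Finset V} {I : Finset E} {f : E → Finset V} (hc : Circ W I f)
    (hSW : S ⊆ W) {idx : V → E} (h1 : ∀ w ∈ W, idx w ∈ I ∧ w ∈ f (idx w))
    (h2 : ∀ w ∈ W, ∀ w' ∈ W, idx w = idx w' → w = w') : IsPattern S W (fun w => f (idx w)) := by
  classical
  refine ⟨hSW, fun w hw => (h1 w hw).2, fun w hw => hc.sub _ (h1 w hw).1, ?_⟩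
  intro u hu v hv
  set R : Finset V := W.filter (fun x => ReflTransGen (fun a b => b ∈ W ∧ a ∈ f (idx b)) x v) with hR
  have hvR : v ∈ R := mem_filter.mpr ⟨hv, ReflTransGen.refl⟩
  have hRW : R = W := by
    by_contra hne
    have hss : R ⊂ W := Finset.ssubset_iff_subset_ne.mpr ⟨filter_subset _ _, hne⟩
    have hlt := hc.lt R hss ⟨v, hvR⟩
    have hle : R.card ≤ cnt I f R := by
      unfold cnt
      apply card_le_card_of_injOn idx
      · intro w hw
        rw [mem_coe] at hw
        have hwW := (mem_filter.mp hw).1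
        rw [mem_coe, mem_filter]
        refine ⟨(h1 w hwW).1, ?_⟩
        intro x hx
        exact mem_filter.mpr ⟨hc.sub _ (h1 w hwW).1 hx, (mem_filter.mp hw).2.head ⟨hwW, hx⟩⟩
      · intro w hw w' hw' h
        rw [mem_coe] at hw hw'
        exact h2 w (mem_filter.mp hw).1 w' (mem_filter.mp hw').1 h
    omega
  have : u ∈ R := by rw [hRW]; exact hu
  exact (mem_filter.mp this).2

/-- connectivity of an induced subgraph from chains -/
lemma induce_connected {α : Type*} (G : SimpleGraph α) (C : Set α) (hne : C.Nonempty)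
    (h : ∀ x ∈ C, ∀ y ∈ C, ReflTransGen (fun a b => a ∈ C ∧ b ∈ C ∧ (a = b ∨ G.Adj a b)) x y) :
    (G.induce C).Connected := by
  have key : ∀ x y, ReflTransGen (fun a b => a ∈ C ∧ b ∈ C ∧ (a = b ∨ G.Adj a b)) x y →
      ∀ (hx : x ∈ C) (hy : y ∈ C), (G.induce C).Reachable ⟨x, hx⟩ ⟨y, hy⟩ := by
    intro x y hxy
    induction hxy with
    | refl => intro hx hy; exact SimpleGraph.Reachable.refl _
    | tail _ hbc ih =>
      intro hx hy
      obtain ⟨hb, hc, hor⟩ := hbc
      refine (ih hx hb).trans ?_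
      rcases hor with h | h
      · subst h; exact SimpleGraph.Reachable.refl _
      · apply SimpleGraph.Adj.reachable
        exact h
  obtain ⟨x0, hx0⟩ := hne
  have : Nonempty C := ⟨⟨x0, hx0⟩⟩
  exact ⟨fun x y => key x.1 y.1 (h x.1 x.2 y.1 y.2) x.2 y.2⟩

/-- the realisation -/
lemma realised_of_model {H : Hypergraph V E} {S W : Finset V} {I : Finset E} {f : E → Finset V}
    {φ : E → Finset E} (hM : Model H S W I f φ)
    {idx : V → E} (h1 : ∀ w ∈ W, idx w ∈ I ∧ w ∈ f (idx w))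
    (h2 : ∀ w ∈ W, ∀ w' ∈ W, idx w = idx w' → w = w') : Realised H W (fun w => f (idx w)) := by
  classical
  refine ⟨fun w => {x | (∃ e ∈ φ (idx w), x = Sum.inl e) ∨ ∃ v ∈ f (idx w), x = Sum.inr (v, w)}, ?_, ?_⟩
  · intro w hw
    refine ⟨fun x hx => Or.inr hx, ?_⟩
    have hI := (h1 w hw).1
    apply induce_connected
    · exact ⟨Sum.inr (w, w), Or.inr ⟨w, (h1 w hw).2, rfl⟩⟩
    · set C : Set (E ⊕ V × V) :=
        {x | (∃ e ∈ φ (idx w), x = Sum.inl e) ∨ ∃ v ∈ f (idx w), x = Sum.inr (v, w)} with hC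
      have hin : ∀ e ∈ φ (idx w), (Sum.inl e : E ⊕ V × V) ∈ C := fun e he => Or.inl ⟨e, he, rfl⟩
      have hinr : ∀ v ∈ f (idx w), (Sum.inr (v, w) : E ⊕ V × V) ∈ C := fun v hv => Or.inr ⟨v, hv, rfl⟩
      have hee : ∀ a ∈ φ (idx w), ∀ b ∈ φ (idx w),
          ReflTransGen (fun a b => a ∈ C ∧ b ∈ C ∧ (a = b ∨ (linkGraph H).Adj a b))
            (Sum.inl a) (Sum.inl b) := by
        intro a ha b hb
        have := hM.conn _ hI a ha b hb
        refine rtg_lift (fun e => (Sum.inl e : E ⊕ V × V)) ?_ this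
        rintro x y ⟨hx, hy, v, hvx, hvy⟩
        refine ⟨hin x hx, hin y hy, ?_⟩
        by_cases hxy : x = y
        · left; rw [hxy]
        · right; exact ⟨hxy, v, hvx, hvy⟩
      have toE : ∀ x ∈ C, ∃ e ∈ φ (idx w),
          ReflTransGen (fun a b => a ∈ C ∧ b ∈ C ∧ (a = b ∨ (linkGraph H).Adj a b)) x (Sum.inl e) ∧
          ReflTransGen (fun a b => a ∈ C ∧ b ∈ C ∧ (a = b ∨ (linkGraph H).Adj a b)) (Sum.inl e) x := by
        rintro x (⟨e, he, rfl⟩ | ⟨v, hv, rfl⟩)
        · exact ⟨e, he, ReflTransGen.refl, ReflTransGen.refl⟩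
        · obtain ⟨e, he, hve⟩ := hM.cover _ hI v hv
          exact ⟨e, he, ReflTransGen.single ⟨hinr v hv, hin e he, Or.inr hve⟩,
            ReflTransGen.single ⟨hin e he, hinr v hv, Or.inr hve⟩⟩
      intro x hx y hy
      obtain ⟨e, he, h3, _⟩ := toE x hx
      obtain ⟨e', he', _, h4⟩ := toE y hy
      exact (h3.trans (hee e he e' he')).trans h4
  · intro w hw w' hw' hne
    rw [Set.disjoint_left]
    rintro x (⟨e, he, rfl⟩ | ⟨v, hv, rfl⟩) (⟨e', he', hx⟩ | ⟨v', hv', hx⟩)
    · have hee : e = e' := Sum.inl.inj hx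
      subst hee
      have := hM.disj _ (h1 w hw).1 _ (h1 w' hw').1 (fun h => hne (h2 w hw w' hw' h))
      exact (disjoint_left.mp this) he he'
    · exact Sum.inl_ne_inr hx
    · exact Sum.inr_ne_inl hx
    · exact hne (congrArg Prod.snd (Sum.inr.inj hx))

theorem exists_pattern [Fintype V] [Fintype E] (H : Hypergraph V E) {S : Finset V}
    (hS : 2 ≤ S.card) (o : Orientation H) (ho : o.Strong S) :
    ∃ (W : Finset V) (F : V → Finset V), IsPattern S W F ∧ W.card + 2 ≤ 2 * S.card ∧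
      ∑ w ∈ W, (F w).card + 6 ≤ 5 * S.card ∧ Realised H W F := by
  classical
  obtain ⟨W0, I0, f0, φ0, hM0⟩ := exists_model H hS o ho
  obtain ⟨W, I, f, φ, hM, hE, hd⟩ := exists_good hS _ W0 I0 f0 φ0 hM0 le_rfl
  obtain ⟨hb1, hb2⟩ := bounds hM.circ hE hS hM.term hd
  have hne : W.Nonempty := by
    rw [← card_pos]
    have := card_le_card hM.term
    omega
  obtain ⟨idx, h1, h2⟩ := exists_index hM.circ hne
  refine ⟨W, fun w => f (idx w), isPattern_of_circ hM.circ hM.term h1 h2, hb1, ?_,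
    realised_of_model hM h1 h2⟩
  have h3 : ∑ w ∈ W, (f (idx w)).card ≤ ∑ i ∈ I, (f i).card := by
    rw [← sum_image (f := fun i => (f i).card) (s := W) (g := idx)
      (fun w hw w' hw' h => h2 w hw w' hw' h)]
    apply sum_le_sum_of_subset
    intro i hi
    obtain ⟨w, hw, rfl⟩ := mem_image.mp hi
    exact (h1 w hw).1
  change ∑ w ∈ W, (f (idx w)).card + 6 ≤ _
  omega

end Pool.SSO
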